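import Pool.Agent.Y92.ZF.Stm
import Pool.Agent.Y226.ZP.Glob

/-!
# The expansion of a root of the Tate parameter along a rational function
-/

set_option autoImplicit false
set_option linter.unusedSectionVars false

open UpperHalfPlane H294ZP Polynomial

namespace Pool.Agent.Y92.ZF

open Pool.Agent.Y226

section ap

variable {C : Type} [NormedField C] [IsUltrametricDist C]

/-- `u = 1 + a` up to `θ ^ 2`, where `a` is at most `θ` -/
def Ap (θ : ℝ) (u a : C) : Prop := ‖u - (1 + a)‖ ≤ θ ^ 2 ∧ ‖a‖ ≤ θ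

variable {θ : ℝ} {u v a b : C}

theorem Ap.sub_one (h1 : θ ≤ 1) (h : Ap θ u a) : ‖u - 1‖ ≤ θ := by
  have h0 : 0 ≤ θ := (norm_nonneg _).trans h.2
  have e : u - 1 = (u - (1 + a)) + a := by ring
  rw [e]
  exact nadd_le (h.1.trans (by nlinarith)) h.2

theorem Ap.norm (h1 : θ < 1) (h : Ap θ u a) : ‖u‖ = 1 :=
  neq_one ((h.sub_one h1.le).trans_lt h1) norm_one

theorem Ap.one (h0 : 0 ≤ θ) : Ap θ (1 : C) 0 := by
  refine ⟨by simp; positivity, by simpa using h0⟩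

theorem Ap.mul (h1 : θ < 1) (h : Ap θ u a) (h' : Ap θ v b) : Ap θ (u * v) (a + b) := by
  have h0 : 0 ≤ θ := (norm_nonneg _).trans h.2
  refine ⟨?_, nadd_le h.2 h'.2⟩
  have e : u * v - (1 + (a + b)) = (u - (1 + a)) * v + (1 + a) * (v - (1 + b)) + a * b := by ring
  rw [e]
  refine nadd_le (nadd_le (nmul_le' h.1 (h'.norm h1).le) (nmul_le ?_ h'.1)) ?_
  · exact nadd_le norm_one.le (h.2.trans h1.le)
  · rw [norm_mul, sq]
    exact mul_le_mul h.2 h'.2 (norm_nonneg _) h0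

theorem Ap.inv (h1 : θ < 1) (h : Ap θ u a) : Ap θ u⁻¹ (-a) := by
  have h0 : 0 ≤ θ := (norm_nonneg _).trans h.2
  have hu := h.norm h1
  have hu0 : u ≠ 0 := norm_pos_iff.1 (by rw [hu]; exact one_pos)
  refine ⟨?_, by rw [norm_neg]; exact h.2⟩
  have e : u⁻¹ - (1 + -a) = u⁻¹ * (a ^ 2 - (u - (1 + a)) * (1 - a)) := by
    field_simp
    ring
  rw [e]
  refine nmul_le (by rw [norm_inv, hu, inv_one]) (nsub_le ?_ (nmul_le' h.1 ?_))
  · rw [norm_pow]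
    exact pow_le_pow_left₀ (norm_nonneg _) h.2 2
  · exact nsub_le norm_one.le (h.2.trans h1.le)

theorem Ap.pow (h1 : θ < 1) (h : Ap θ u a) (k : ℕ) : Ap θ (u ^ k) (k * a) := by
  have h0 : 0 ≤ θ := (norm_nonneg _).trans h.2
  induction k with
  | zero => simpa using Ap.one h0
  | succ k ih =>
    have := ih.mul h1 h
    rw [pow_succ]
    have e : ((k + 1 : ℕ) : C) * a = k * a + a := by push_cast; ring
    rw [e]
    exact this

theorem Ap.congr (h : Ap θ u a) (hb : ‖b - a‖ ≤ θ ^ 2) (hb' : ‖b‖ ≤ θ) : Ap θ u b := by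
  refine ⟨?_, hb'⟩
  have e : u - (1 + b) = (u - (1 + a)) - (b - a) := by ring
  rw [e]
  exact nsub_le h.1 hb

end ap

section root

variable {C : Type} [NormedField C] [IsUltrametricDist C] [IsAlgClosed C]

/-- roots close to one -/
theorem root_near {k : ℕ} (hk : 0 < k) (hkn : ‖(k : C)‖ = 1) {u : C} (hu : ‖u - 1‖ < 1) :
    ∃ v : C, v ^ k = u ∧ ‖v - (1 + (u - 1) * (k : C)⁻¹)‖ ≤ ‖u - 1‖ ^ 2 := by
  have hk0 : (k : C) ≠ 0 := norm_pos_iff.1 (by rw [hkn]; exact one_pos)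
  set P : C[X] := X ^ k - Polynomial.C u with hP
  have hPm : P.Monic := monic_X_pow_sub_C u hk.ne'
  have hs : P.Splits := IsAlgClosed.splits P
  have he := hs.eval_eq_prod_roots_of_monic hPm 1
  have hP1 : P.eval 1 = 1 - u := by simp [hP]
  rw [hP1] at he
  obtain ⟨v, hv, hv1⟩ : ∃ v ∈ P.roots, ‖(1 : C) - v‖ < 1 := by
    by_contra hcon
    push Not at hcon
    have h1 : 1 ≤ ‖(P.roots.map (fun v => (1 : C) - v)).prod‖ := by
      have : ∀ s : Multiset C, (∀ v ∈ s, 1 ≤ ‖(1 : C) - v‖) →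
          1 ≤ ‖(s.map (fun v => (1 : C) - v)).prod‖ := by
        intro s
        induction s using Multiset.induction_on with
        | empty => intro _; simp
        | cons a s ih =>
          intro h
          rw [Multiset.map_cons, Multiset.prod_cons, norm_mul]
          have h1 := h a (Multiset.mem_cons_self a s)
          have h2 := ih fun v hv => h v (Multiset.mem_cons_of_mem hv)
          nlinarith
      exact this _ hcon
    rw [← he] at h1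
    have h2 : ‖(1 : C) - u‖ = ‖u - 1‖ := norm_sub_rev _ _
    rw [h2] at h1
    exact absurd hu (not_lt.2 h1)
  have hvk : v ^ k = u := by
    have h1 := (mem_roots'.1 hv).2
    rw [hP, IsRoot.def, eval_sub, eval_pow, eval_X, eval_C] at h1
    exact sub_eq_zero.1 h1
  refine ⟨v, hvk, ?_⟩
  have hv1' : ‖v - 1‖ < 1 := by rw [norm_sub_rev]; exact hv1
  have hvn : ‖v‖ = 1 := neq_one hv1' norm_one
  set S : C := ∑ i ∈ Finset.range k, v ^ i with hS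
  have hSe : u - 1 = (v - 1) * S := by
    rw [← hvk, hS, mul_geom_sum]
  have hSk : ‖S - k‖ ≤ ‖v - 1‖ := by
    have e : S - k = ∑ i ∈ Finset.range k, (v ^ i - 1 ^ i) := by
      rw [Finset.sum_sub_distrib, hS]
      simp
    rw [e]
    exact nsum_le _ _ (norm_nonneg _) fun i _ =>
      npow_sub_pow hvn.le (norm_one (α := C)).le le_rfl i
  have hSn : ‖S‖ = 1 := neq_one (hSk.trans_lt hv1') hkn
  have hen : ‖u - 1‖ = ‖v - 1‖ := by rw [hSe, norm_mul, hSn, mul_one]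
  have e : v - (1 + (u - 1) * (k : C)⁻¹) = -((v - 1) * (S - k)) * (k : C)⁻¹ := by
    rw [hSe]
    field_simp
    ring
  rw [e, hen, norm_mul, norm_neg, norm_mul, norm_inv, hkn, inv_one, mul_one, sq]
  exact mul_le_mul_of_nonneg_left hSk (norm_nonneg _)

end root

section poly

variable {C : Type} [NormedField C] [IsUltrametricDist C]

theorem eval_le {Q : C[X]} (hQ : ∀ i, ‖Q.coeff i‖ ≤ 1) {z : C} (hz : ‖z‖ ≤ 1) : ‖Q.eval z‖ ≤ 1 := by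
  rw [eval_eq_sum_range]
  exact nsum_le _ _ zero_le_one fun i _ => nmul_le (hQ i) (npow_le hz i)

/-- the expansion of a polynomial at infinity -/
theorem poly_exp {P : C[X]} (hP : ∀ i, ‖P.coeff i‖ ≤ 1) (hl : ‖P.leadingCoeff‖ = 1) :
    ∃ ν : C, ‖ν‖ ≤ 1 ∧ ∀ (s : C) (θ : ℝ), 1 < ‖s‖ → ‖s‖⁻¹ ≤ θ → ‖ν‖ ≤ 1 ∧
      Ap θ (P.eval s * (P.leadingCoeff * s ^ P.natDegree)⁻¹) (ν * s⁻¹) := by
  set l := P.leadingCoeff with hldef
  have hl0 : l ≠ 0 := norm_pos_iff.1 (by rw [hl]; exact one_pos)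
  set Q := P.reverse with hQ
  have hQc : ∀ i, ‖Q.coeff i‖ ≤ 1 := fun i => by
    rw [hQ, coeff_reverse]
    exact hP _
  have hQ0 : Q.coeff 0 = l := coeff_zero_reverse P
  have hν : ‖Q.coeff 1 * l⁻¹‖ ≤ 1 := nmul_le (hQc 1) (by rw [norm_inv, hl, inv_one])
  refine ⟨Q.coeff 1 * l⁻¹, hν, fun s θ hs hθ => ⟨hν, ?_⟩⟩
  have hs0 : s ≠ 0 := norm_pos_iff.1 (one_pos.trans hs)
  have hsi : ‖s⁻¹‖ ≤ 1 := by
    rw [norm_inv]
    exact (inv_lt_one_of_one_lt₀ hs).le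
  have hsθ : ‖s⁻¹‖ ≤ θ := by rw [norm_inv]; exact hθ
  refine ⟨?_, (nmul_le hν hsθ)⟩
  have e1 := eval_inv_reverse P hs0
  rw [← hQ] at e1
  have e2 : Q.eval s⁻¹ = l + s⁻¹ * Q.coeff 1 + s⁻¹ ^ 2 * (Q.divX.divX).eval s⁻¹ := by
    have h1 : Q = X * Q.divX + Polynomial.C (Q.coeff 0) := (X_mul_divX_add Q).symm
    have h2 : Q.divX = X * Q.divX.divX + Polynomial.C (Q.divX.coeff 0) := (X_mul_divX_add _).symm
    have h3 : Q.eval s⁻¹ = s⁻¹ * (Q.divX).eval s⁻¹ + Q.coeff 0 := by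
      have h := congrArg (eval s⁻¹) h1
      rwa [eval_add, eval_mul, eval_X, eval_C] at h
    have h4 : Q.divX.eval s⁻¹ = s⁻¹ * (Q.divX.divX).eval s⁻¹ + Q.divX.coeff 0 := by
      have h := congrArg (eval s⁻¹) h2
      rwa [eval_add, eval_mul, eval_X, eval_C] at h
    have h5 : Q.divX.coeff 0 = Q.coeff 1 := by rw [coeff_divX]
    rw [h3, h4, h5, hQ0]
    ring
  have e3 : P.eval s * (l * s ^ P.natDegree)⁻¹ - (1 + Q.coeff 1 * l⁻¹ * s⁻¹) =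
      s⁻¹ ^ 2 * ((Q.divX.divX).eval s⁻¹ * l⁻¹) := by
    rw [e1, e2]
    have : s ^ P.natDegree ≠ 0 := pow_ne_zero _ hs0
    field_simp
    ring
  rw [e3, norm_mul, norm_pow]
  have h6 : ‖(Q.divX.divX).eval s⁻¹ * l⁻¹‖ ≤ 1 := by
    refine nmul_le (eval_le (fun i => ?_) hsi) (by rw [norm_inv, hl, inv_one])
    rw [coeff_divX, coeff_divX]
    exact hQc _
  calc ‖s⁻¹‖ ^ 2 * ‖(Q.divX.divX).eval s⁻¹ * l⁻¹‖ ≤ ‖s⁻¹‖ ^ 2 * 1 := by gcongr
    _ = ‖s⁻¹‖ ^ 2 := mul_one _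
    _ ≤ θ ^ 2 := pow_le_pow_left₀ (norm_nonneg _) hsθ 2

end poly

theorem nat_unit {C : Type} [NormedField C] [IsUltrametricDist C] [CharZero C] {p : ℕ}
    [hpf : Fact p.Prime] (hp1 : ‖(p : C)‖ < 1) {k : ℕ} (hk : 0 < k) (hkp : k < p) :
    ‖(k : C)‖ = 1 := by
  have h1 := rat_unit (C := C) hp1 (u := (k : ℚ)) (by
    rw [padicValRat.of_nat]
    have : padicValNat p k = 0 := padicValNat.eq_zero_of_not_dvd
      (fun h => absurd (Nat.le_of_dvd hk h) (by omega))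
    rw [this]; rfl) (by exact_mod_cast hk.ne')
  have h2 := h1.2
  rwa [Rat.cast_natCast] at h2

theorem exp' : S_EXP := by
  intro C _ _ _ _ _ p hpf ψ hψ hp0 hp1 Nu De k hk hkp hDe0 hdeg hNu hDe hNl hDl γ hγ
  have hkn := nat_unit (C := C) hp1 hk hkp
  have hk0 : (k : C) ≠ 0 := norm_pos_iff.1 (by rw [hkn]; exact one_pos)
  obtain ⟨ν, hν, hν'⟩ := poly_exp hNu hNl
  obtain ⟨δ, hδ, hδ'⟩ := poly_exp hDe hDl
  have hγn : ‖(γ : C)‖ = 1 := by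
    have h1 := congrArg norm hγ
    rw [norm_mul, norm_pow, hNl, hDl, mul_one] at h1
    exact (pow_eq_one_iff_of_nonneg (norm_nonneg _) hk.ne').1 h1
  have hγ0 : (γ : C) ≠ 0 := γ.ne_zero
  set c₁ : C := if k = 1 then ψ (cj 1) * (γ : C)⁻¹ else 0 with hc₁
  have hc₁n : ‖c₁‖ ≤ 1 := by
    rw [hc₁]
    split_ifs
    · exact nmul_le (hψ _) (by rw [norm_inv, hγn, inv_one])
    · simp
  set β₀ : C := c₁ + (δ + -ν) with hβ₀
  have hβ₀n : ‖β₀‖ ≤ 1 := nadd_le hc₁n (nadd_le hδ (by rwa [norm_neg]))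
  have hβn : ‖β₀ * (k : C)⁻¹‖ ≤ 1 := nmul_le hβ₀n (by rw [norm_inv, hkn, inv_one])
  refine ⟨β₀ * (k : C)⁻¹, hβn, ?_⟩
  intro Λ m x hΛ hm hx
  have hΛ0 : (Λ : C) ≠ 0 := Λ.ne_zero
  have hΛpos : 0 < ‖(Λ : C)‖ := norm_pos_iff.2 hΛ0
  have hpΛ : 1 ≤ ‖(p : C)‖ * ‖(Λ : C)‖ := by rwa [inv_le_iff_one_le_mul₀ hΛpos] at hΛ
  have hxpos : 0 < ‖x‖ := hp0.trans hx
  have hx0 : x ≠ 0 := norm_pos_iff.1 hxpos
  set s : C := Λ * x + m with hs
  set θ : ℝ := ‖(p : C)‖ * ‖x‖⁻¹ with hθ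
  have hθ0 : 0 < θ := by positivity
  have hθ1 : θ < 1 := by
    rw [hθ, ← div_eq_mul_inv, div_lt_one hxpos]
    exact hx
  have hsn : ‖s‖ = ‖(Λ : C)‖ * ‖x‖ := by
    rw [hs, neq_of_add_lt, norm_mul]
    rw [norm_mul, mul_comm]
    exact hm.trans_lt (mul_lt_mul_of_pos_right hx hΛpos)
  have hsθ : ‖s‖⁻¹ ≤ θ := by
    rw [hsn, mul_inv, hθ]
    exact mul_le_mul_of_nonneg_right hΛ (inv_nonneg.2 hxpos.le)
  have hspos : 0 < ‖s‖ := by rw [hsn]; positivity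
  have hs1 : 1 < ‖s‖ := by
    have h1 : ‖s‖⁻¹ < 1 := hsθ.trans_lt hθ1
    by_contra hcon
    push Not at hcon
    have := (one_le_inv₀ hspos).2 hcon
    linarith
  have hs0 : s ≠ 0 := norm_pos_iff.1 hspos
  have hmθ : ‖m * s⁻¹‖ ≤ θ := by
    rw [norm_mul, norm_inv, hsn, mul_inv, hθ]
    calc ‖m‖ * (‖(Λ : C)‖⁻¹ * ‖x‖⁻¹) ≤ (‖(p : C)‖ * ‖(Λ : C)‖) * (‖(Λ : C)‖⁻¹ * ‖x‖⁻¹) := by
          gcongr
      _ = ‖(p : C)‖ * ‖x‖⁻¹ := by field_simp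
  have hU := (hν' s θ hs1 hsθ).2
  have hV := (hδ' s θ hs1 hsθ).2
  set lN := Nu.leadingCoeff with hlN
  set lD := De.leadingCoeff with hlD
  have hlN0 : lN ≠ 0 := norm_pos_iff.1 (by rw [hNl]; exact one_pos)
  have hlD0 : lD ≠ 0 := norm_pos_iff.1 (by rw [hDl]; exact one_pos)
  set U := Nu.eval s * (lN * s ^ Nu.natDegree)⁻¹ with hUdef
  set V := De.eval s * (lD * s ^ De.natDegree)⁻¹ with hVdef
  have hUn := hU.norm hθ1
  have hVn := hV.norm hθ1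
  have hV0 : V ≠ 0 := norm_pos_iff.1 (by rw [hVn]; exact one_pos)
  have hU0 : U ≠ 0 := norm_pos_iff.1 (by rw [hUn]; exact one_pos)
  have hsN : s ^ Nu.natDegree ≠ 0 := pow_ne_zero _ hs0
  have hsD : s ^ De.natDegree ≠ 0 := pow_ne_zero _ hs0
  have hNe : Nu.eval s = U * (lN * s ^ Nu.natDegree) := by
    rw [hUdef]; field_simp
  have hDee : De.eval s = V * (lD * s ^ De.natDegree) := by
    rw [hVdef]; field_simp
  have hDev : De.eval s ≠ 0 := by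
    rw [hDee]
    exact mul_ne_zero hV0 (mul_ne_zero hlD0 hsD)
  set X₀ := Nu.eval s / De.eval s with hX₀
  have hXe : X₀ = (γ * s) ^ k * (U * V⁻¹) := by
    rw [hX₀, hNe, hDee, hdeg, ← hγ, mul_pow, pow_add]
    field_simp
  have hXn : ‖X₀‖ = ‖s‖ ^ k := by
    rw [hXe, norm_mul, norm_mul, norm_inv, norm_pow, norm_mul, hUn, hVn, hγn]
    ring
  have hX1 : 1 < ‖X₀‖ := by
    rw [hXn]
    exact one_lt_pow₀ hs1 hk.ne'
  have hX0 : X₀ ≠ 0 := norm_pos_iff.1 (one_pos.trans hX1)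
  refine ⟨hDev, hX1, ?_⟩
  -- the factors
  have hXi : ‖X₀‖⁻¹ ≤ θ := by
    rw [hXn]
    have h1 : ‖s‖ ≤ ‖s‖ ^ k := le_self_pow₀ hs1.le hk.ne'
    exact (inv_anti₀ hspos h1).trans hsθ
  have hF1 : Ap θ (qT ψ X₀ * X₀) (ψ (cj 1) * X₀⁻¹) := by
    refine ⟨(qT_expand hψ hX1).trans (pow_le_pow_left₀ (inv_nonneg.2 (norm_nonneg _)) hXi 2), ?_⟩
    exact nmul_le (hψ _) (by rw [norm_inv]; exact hXi)
  have hsi : ‖s⁻¹‖ ≤ θ := by rw [norm_inv]; exact hsθ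
  have hF1' : Ap θ (qT ψ X₀ * X₀) (c₁ * s⁻¹) := by
    refine hF1.congr ?_ (nmul_le hc₁n hsi)
    rw [hc₁]
    by_cases hk1 : k = 1
    · rw [if_pos hk1]
      have e1 : X₀⁻¹ = (γ : C)⁻¹ * s⁻¹ * (U⁻¹ * V) := by
        rw [hXe, hk1, pow_one]
        field_simp
      have e2 := (hU.inv hθ1).mul hθ1 hV
      have e3 : ψ (cj 1) * (γ : C)⁻¹ * s⁻¹ - ψ (cj 1) * X₀⁻¹ =
          -(ψ (cj 1) * (γ : C)⁻¹ * (s⁻¹ * (U⁻¹ * V - 1))) := by
        rw [e1]; ring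
      rw [e3, norm_neg]
      refine nmul_le (nmul_le (hψ _) (by rw [norm_inv, hγn, inv_one])) ?_
      rw [norm_mul, sq]
      exact mul_le_mul hsi (e2.sub_one hθ1.le) (norm_nonneg _) hθ0.le
    · rw [if_neg hk1, zero_mul, zero_sub, norm_neg]
      refine nmul_le (hψ _) ?_
      rw [norm_inv, hXn, ← inv_pow, ← norm_inv]
      have h2 : 2 ≤ k := by omega
      calc ‖s⁻¹‖ ^ k ≤ ‖s⁻¹‖ ^ 2 :=
            pow_le_pow_of_le_one (norm_nonneg _) (hsi.trans hθ1.le) h2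
        _ ≤ θ ^ 2 := pow_le_pow_left₀ (norm_nonneg _) hsi 2
  have hF2 : Ap θ (V * U⁻¹) (δ * s⁻¹ + -(ν * s⁻¹)) := hV.mul hθ1 (hU.inv hθ1)
  have hF3 : Ap θ ((Λ : C) * x * s⁻¹) (-(m * s⁻¹)) := by
    refine ⟨?_, by rw [norm_neg]; exact hmθ⟩
    have e : (Λ : C) * x * s⁻¹ - (1 + -(m * s⁻¹)) = 0 := by
      have : (Λ : C) * x = s - m := by rw [hs]; ring
      rw [this]
      field_simp
      ring
    rw [e, norm_zero]
    positivity
  have hF := (hF1'.mul hθ1 hF2).mul hθ1 (hF3.pow hθ1 k)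
  set u : C := qT ψ X₀ * ((γ * Λ : Cˣ) * x) ^ k with hu
  have hue : qT ψ X₀ * X₀ * (V * U⁻¹) * ((Λ : C) * x * s⁻¹) ^ k = u := by
    rw [hu, Units.val_mul]
    generalize qT ψ X₀ = Q
    rw [hXe, mul_pow, mul_pow, mul_pow, mul_pow, mul_pow, inv_pow]
    have : s ^ k ≠ 0 := pow_ne_zero _ hs0
    field_simp
  rw [hue] at hF
  have hue1 := hF.sub_one hθ1.le
  obtain ⟨v, hvk, hv⟩ := root_near hk hkn (hue1.trans_lt hθ1)
  have hvA : Ap θ v ((β₀ * (k : C)⁻¹ - m) * s⁻¹) := by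
    have hb : ‖(β₀ * (k : C)⁻¹ - m) * s⁻¹‖ ≤ θ := by
      rw [sub_mul]
      exact nsub_le (nmul_le hβn hsi) hmθ
    refine ⟨?_, hb⟩
    have e : v - (1 + (β₀ * (k : C)⁻¹ - m) * s⁻¹) = (v - (1 + (u - 1) * (k : C)⁻¹)) +
        (u - (1 + (c₁ * s⁻¹ + (δ * s⁻¹ + -(ν * s⁻¹)) + (k : C) * -(m * s⁻¹)))) * (k : C)⁻¹ := by
      rw [hβ₀]
      field_simp
      ring
    rw [e]
    refine nadd_le (hv.trans (pow_le_pow_left₀ (norm_nonneg _) hue1 2)) ?_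
    exact nmul_le' hF.1 (by rw [norm_inv, hkn, inv_one])
  have hγΛ : ((γ * Λ : Cˣ) : C) * x ≠ 0 := mul_ne_zero (γ * Λ).ne_zero hx0
  have hvn := hvA.norm hθ1
  have hv0 : v ≠ 0 := norm_pos_iff.1 (by rw [hvn]; exact one_pos)
  refine ⟨v * (((γ * Λ : Cˣ) : C) * x)⁻¹, mul_ne_zero hv0 (inv_ne_zero hγΛ), ?_, ?_, ?_⟩
  · rw [mul_pow, hvk, inv_pow, hu, mul_assoc, mul_inv_cancel₀ (pow_ne_zero _ hγΛ), mul_one]
  · rw [mul_assoc, inv_mul_cancel₀ hγΛ, mul_one]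
    exact hvA.sub_one hθ1.le
  · intro hx1
    have hθp : θ = ‖(p : C)‖ := by rw [hθ, hx1, inv_one, mul_one]
    rw [mul_assoc, inv_mul_cancel₀ hγΛ, mul_one]
    have e : v - (1 + (β₀ * (k : C)⁻¹ - m) * ((Λ : C) * x)⁻¹) =
        (v - (1 + (β₀ * (k : C)⁻¹ - m) * s⁻¹)) -
          ((β₀ * (k : C)⁻¹ - m) * s⁻¹) * (m * ((Λ : C) * x)⁻¹) := by
      have h1 : (Λ : C) * x ≠ 0 := mul_ne_zero hΛ0 hx0
      have h2 : s = (Λ : C) * x + m := hs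
      have h3 : (Λ : C) * x + m ≠ 0 := by rw [← h2]; exact hs0
      rw [h2]
      field_simp
      ring
    rw [e, ← hθp]
    refine nsub_le hvA.1 ?_
    rw [norm_mul, sq]
    refine mul_le_mul hvA.2 ?_ (norm_nonneg _) hθ0.le
    rw [norm_mul, norm_inv, norm_mul, hθ, mul_inv]
    calc ‖m‖ * (‖(Λ : C)‖⁻¹ * ‖x‖⁻¹) ≤ (‖(p : C)‖ * ‖(Λ : C)‖) * (‖(Λ : C)‖⁻¹ * ‖x‖⁻¹) := by
          gcongr
      _ = ‖(p : C)‖ * ‖x‖⁻¹ := by field_simp

end Pool.Agent.Y92.ZF
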