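import Pool.Agent.Y226.ZP.Modular

/-!
# Project ZF: statements

Tate parameters along rational functions with a pole at infinity.
-/

set_option autoImplicit false
set_option linter.unusedSectionVars false

open UpperHalfPlane H294ZP Polynomial

namespace Pool.Agent.Y92.ZF

open Pool.Agent.Y226

/-- ZF-EXP: the `k`-th root of the Tate parameter of `J (Λ x + m)`, `J = Nu / De` a rational function
with a pole of order `k` at infinity. -/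
def S_EXP : Prop :=
  ∀ (C : Type) [NormedField C] [IsUltrametricDist C] [CompleteSpace C] [CharZero C]
    [IsAlgClosed C] (p : ℕ) [Fact p.Prime] (ψ : ZZ →+* C), (∀ z, ‖ψ z‖ ≤ 1) →
    0 < ‖(p : C)‖ → ‖(p : C)‖ < 1 →
    ∀ (Nu De : C[X]) (k : ℕ), 0 < k → k < p → De ≠ 0 → Nu.natDegree = De.natDegree + k →
    (∀ i, ‖Nu.coeff i‖ ≤ 1) → (∀ i, ‖De.coeff i‖ ≤ 1) →
    ‖Nu.leadingCoeff‖ = 1 → ‖De.leadingCoeff‖ = 1 →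
    ∀ γ : Cˣ, (γ : C) ^ k * De.leadingCoeff = Nu.leadingCoeff →
    ∃ β : C, ‖β‖ ≤ 1 ∧ ∀ (Λ : Cˣ) (m x : C), ‖(Λ : C)‖⁻¹ ≤ ‖(p : C)‖ →
      ‖m‖ ≤ ‖(p : C)‖ * ‖(Λ : C)‖ → ‖(p : C)‖ < ‖x‖ →
      De.eval (Λ * x + m) ≠ 0 ∧ 1 < ‖Nu.eval (Λ * x + m) / De.eval (Λ * x + m)‖ ∧
      ∃ t : C, t ≠ 0 ∧ t ^ k = qT ψ (Nu.eval (Λ * x + m) / De.eval (Λ * x + m)) ∧
        ‖t * ((γ * Λ : Cˣ) * x) - 1‖ ≤ ‖(p : C)‖ * ‖x‖⁻¹ ∧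
        (‖x‖ = 1 → ‖t * ((γ * Λ : Cˣ) * x) - (1 + (β - m) * (Λ * x)⁻¹)‖ ≤ ‖(p : C)‖ ^ 2)

/-- ZF-REL: the relation between roots of the Tate parameters of two coordinates of a class. -/
def S_REL : Prop :=
  ∀ (C : Type) [NormedField C] [IsUltrametricDist C] [CompleteSpace C] [CharZero C]
    [IsAlgClosed C] (ψ : ZZ →+* C), (∀ z, ‖ψ z‖ ≤ 1) →
    ∀ (K₀ : Type) [Field K₀] (i₀ : ZZ →+* K₀) (ρ : K₀ →+* ℂ) (φ : K₀ →+* C),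
      ρ.comp i₀ = ιZ → φ.comp i₀ = ψ → ∀ (τ w : ℍ) (a b c d : ℤ), 0 < a * d - b * c →
      (w : ℂ) * (c * τ + d) = a * τ + b → ∀ X Y : K₀, ρ X = jj τ → ρ Y = jj w → 1 < ‖φ X‖ →
      ∀ (k l : ℕ), 0 < k → 0 < l → ∀ s t : C, s ^ k = qT ψ (φ X) → t ^ l = qT ψ (φ Y) →
      ∃ (A B g : ℕ) (ζ : C), 0 < A ∧ 0 < B ∧ A.Coprime B ∧ 0 < g ∧ IsPrimitiveRoot ζ g ∧
        t ^ B = ζ * s ^ A ∧ 1 < ‖φ Y‖ ∧
        ∃ N : ℕ, 0 < N ∧ N ≤ (k * l) ^ 2 * (A * B) * g ^ 2 ∧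
          PsiE ιZ (mP N) (mD N) (jj τ) (jj w) = 0

end Pool.Agent.Y92.ZF
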