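import Pool.Agent.Y226.ZG.Loc5
import Pool.Agent.Y92.ZF.Stm

/-!
# The local theorem for general parameters

Adapted from `Pool.Agent.Y226.ZG.Loc2`, `Loc3` and `Loc5` (helper226): the Tate parameters are replaced
by numbers `tq i` with the same expansions and relations.
-/

set_option autoImplicit false
set_option linter.unusedSectionVars false

open UpperHalfPlane H294ZP Polynomial

namespace Pool.Agent.Y92.ZF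

open Pool.Agent.Y226 Pool.Agent.Y226.ZG

/-- the hypotheses on the numbers `tq i` at a point -/
structure Tq {C : Type} [NormedField C] [IsUltrametricDist C] {p : ℕ} [hpf : Fact p.Prime]
    {k : Type} [Field k] {n N W M d D : ℕ} (𝓛 : Loc C p k n N W M d D) (K : ℕ) (κ : Fin n → OO C)
    (x : Fin n → C) (X : Fin n → QA) (tq : Fin n → C) : Prop where
  big : ∀ i, ‖(p : C)‖ < ‖x i‖ → 1 < ‖𝓛.φ (X i)‖
  ne : ∀ i, ‖(p : C)‖ < ‖x i‖ → tq i ≠ 0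
  lin : ∀ i, ‖(p : C)‖ < ‖x i‖ → ‖x i‖ < ‖(p : C)‖⁻¹ →
    ‖tq i * (𝓛.Λ i * x i) - 1‖ ≤ ‖(p : C)‖ * ‖x i‖⁻¹
  sec : ∀ i, ‖x i‖ = 1 →
    ‖tq i * (𝓛.Λ i * x i) - (1 + p * (κ i * (x i)⁻¹))‖ ≤ ‖(p : C)‖ ^ 2
  rel : ∀ i l, ‖(p : C)‖ < ‖x i‖ → ‖(p : C)‖ < ‖x l‖ → ∀ (τ w : ℍ) (a b c d' : ℤ),
    0 < a * d' - b * c → (w : ℂ) * (c * τ + d') = a * τ + b → rA (X i) = jj τ →
    rA (X l) = jj w → ∃ (A B g : ℕ) (ζ : C), 0 < A ∧ 0 < B ∧ A.Coprime B ∧ 0 < g ∧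
      IsPrimitiveRoot ζ g ∧ tq l ^ B = ζ * tq i ^ A ∧ ∃ N' : ℕ, 0 < N' ∧
      N' ≤ K * (A * B) * g ^ 2 ∧ PsiE ιZ (mP N') (mD N') (rA (X i)) (rA (X l)) = 0

/-- information on a pair of coordinates -/
structure PJ {C : Type} [NormedField C] [IsUltrametricDist C] {p : ℕ} [hpf : Fact p.Prime]
    {k : Type} [Field k] {n N W M d D : ℕ} (𝓛 : Loc C p k n N W M d D) (K : ℕ) (κ : Fin n → OO C)
    (Y : Fin n → Cˣ) (X : Fin n → QA) (j l : Fin n) (A B g' s : ℕ) (ζ' ε : Cˣ) : Prop where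
  hA : 0 < A
  hB : 0 < B
  hAW : A ≤ W
  hBW : B ≤ W
  hg : 0 < g'
  hcop : g'.Coprime p
  hζ : IsPrimitiveRoot (ζ' : C) g'
  hε : IsPrimitiveRoot (ε : C) (p ^ s)
  hμ : 𝓛.Λ l ^ B * (𝓛.Λ j ^ A)⁻¹ ∈ GG C p 0 le_rfl one_pos
  hexp : ‖((𝓛.Λ l ^ B * (𝓛.Λ j ^ A)⁻¹ * (Y l ^ B * (Y j ^ A)⁻¹) * (ζ' * ε) : Cˣ) : C) -
        (1 + p * (B * (κ l * ((Y l : Cˣ) : C)⁻¹) - A * (κ j * ((Y j : Cˣ) : C)⁻¹)))‖ ≤
          ‖(p : C)‖ ^ 2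
  hrel : ∃ N' : ℕ, 0 < N' ∧ N' ≤ K * (A * B) * (g' * p ^ s) ^ 2 ∧
    PsiE ιZ (mP N') (mD N') (rA (X j)) (rA (X l)) = 0

namespace PJ

variable {C : Type} [NormedField C] [IsUltrametricDist C] {p : ℕ} [hpf : Fact p.Prime]
  {k : Type} [Field k] {n N W M d D : ℕ} {𝓛 : Loc C p k n N W M d D} {K : ℕ} {κ : Fin n → OO C}
  {Y : Fin n → Cˣ} {X : Fin n → QA} {j l : Fin n} {A B g' s : ℕ} {ζ' ε : Cˣ}

theorem close (h : PJ 𝓛 K κ Y X j l A B g' s ζ' ε) (hYj : ‖((Y j : Cˣ) : C)‖ = 1)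
    (hYl : ‖((Y l : Cˣ) : C)‖ = 1) :
    ‖((𝓛.Λ l ^ B * (𝓛.Λ j ^ A)⁻¹ * (Y l ^ B * (Y j ^ A)⁻¹) * (ζ' * ε) : Cˣ) : C) - 1‖ ≤
      ‖(p : C)‖ := by
  have e1 : ((𝓛.Λ l ^ B * (𝓛.Λ j ^ A)⁻¹ * (Y l ^ B * (Y j ^ A)⁻¹) * (ζ' * ε) : Cˣ) : C) - 1 =
      (((𝓛.Λ l ^ B * (𝓛.Λ j ^ A)⁻¹ * (Y l ^ B * (Y j ^ A)⁻¹) * (ζ' * ε) : Cˣ) : C) -
        (1 + p * (B * (κ l * ((Y l : Cˣ) : C)⁻¹) - A * (κ j * ((Y j : Cˣ) : C)⁻¹)))) +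
        p * (B * (κ l * ((Y l : Cˣ) : C)⁻¹) - A * (κ j * ((Y j : Cˣ) : C)⁻¹)) := by ring
  rw [e1]
  refine nadd_le (h.hexp.trans (pow_le_of_le_one (norm_nonneg _) 𝓛.hp1.le two_ne_zero)) ?_
  refine nmul_le' le_rfl (nsub_le (nmul_le (nnat B) (nmul_le (κ l).2 ?_))
    (nmul_le (nnat A) (nmul_le (κ j).2 ?_)))
  · rw [norm_inv, hYl, inv_one]
  · rw [norm_inv, hYj, inv_one]

/-- membership in `GG` -/
theorem mem_GG (h : PJ 𝓛 K κ Y X j l A B g' s ζ' ε) (hYj : ‖((Y j : Cˣ) : C)‖ = 1)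
    (hYl : ‖((Y l : Cˣ) : C)‖ = 1) :
    (Y l ^ B * (Y j ^ A)⁻¹) * ε ∈ GG C p ‖(p : C)‖ (norm_nonneg _) 𝓛.hp1 := by
  have h1 : 𝓛.Λ l ^ B * (𝓛.Λ j ^ A)⁻¹ * (Y l ^ B * (Y j ^ A)⁻¹) * (ζ' * ε) ∈
      GG C p ‖(p : C)‖ (norm_nonneg _) 𝓛.hp1 :=
    GG_of_close (one_mem _) norm_one (h.close hYj hYl)
  have h2 : ζ' ∈ GG C p ‖(p : C)‖ (norm_nonneg _) 𝓛.hp1 := by
    obtain ⟨f', hf', hff⟩ := fixed_of_pow_eq_one h.hcop h.hζ.pow_eq_one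
    refine GG_of_close (w := (ζ' : C)) (Nr_of_fixed hf' hff) ?_ (by simp)
    have h1 : ‖(ζ' : C)‖ ^ g' = 1 := by rw [← norm_pow, h.hζ.pow_eq_one, norm_one]
    exact (pow_eq_one_iff_of_nonneg (norm_nonneg _) h.hg.ne').1 h1
  have h3 := GG_mono (h0' := norm_nonneg _) (h1' := 𝓛.hp1) (norm_nonneg (p : C)) h.hμ
  have e2 : (Y l ^ B * (Y j ^ A)⁻¹) * ε =
      (𝓛.Λ l ^ B * (𝓛.Λ j ^ A)⁻¹ * (Y l ^ B * (Y j ^ A)⁻¹) * (ζ' * ε)) *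
        (𝓛.Λ l ^ B * (𝓛.Λ j ^ A)⁻¹)⁻¹ * ζ'⁻¹ := by
    generalize 𝓛.Λ l ^ B * (𝓛.Λ j ^ A)⁻¹ = μ
    generalize Y l ^ B * (Y j ^ A)⁻¹ = F
    calc F * ε = (μ * μ⁻¹) * (ζ' * ζ'⁻¹) * (F * ε) := by
          rw [mul_inv_cancel, mul_inv_cancel, one_mul, one_mul]
      _ = μ * F * (ζ' * ε) * μ⁻¹ * ζ'⁻¹ := by ac_rfl
  rw [e2]
  exact mul_mem (mul_mem h1 (inv_mem h3)) (inv_mem h2)

end PJ
section pair

variable {C : Type} [NormedField C] [IsUltrametricDist C] [CompleteSpace C] [CharZero C]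
  [IsAlgClosed C] {p : ℕ} [hpf : Fact p.Prime] {k : Type}
  [Field k] {n N W M d D : ℕ} (𝓛 : Loc C p k n N W M d D)

/-- the relation between two good coordinates of the same class -/
theorem pair3 {tj tl : C} {j l : Fin n} {A B g : ℕ} {ζ : C} (hA : 0 < A) (hB : 0 < B)
    (hg : 0 < g) (hζ : IsPrimitiveRoot ζ g) (hq : tl ^ B = ζ * tj ^ A) {Yj Yl : Cˣ}
    (hYj : ‖(Yj : C)‖ = 1) (hYl : ‖(Yl : C)‖ = 1) {κj κl : OO C}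
    (ej2 : ‖tj * (𝓛.Λ j * Yj) - (1 + p * (κj * (Yj : C)⁻¹))‖ ≤ ‖(p : C)‖ ^ 2)
    (el2 : ‖tl * (𝓛.Λ l * Yl) - (1 + p * (κl * (Yl : C)⁻¹))‖ ≤ ‖(p : C)‖ ^ 2) :
    ∃ (g' s : ℕ) (ζ' ε : Cˣ), B * 𝓛.w l = A * 𝓛.w j ∧ 0 < g' ∧ g'.Coprime p ∧
      IsPrimitiveRoot (ζ' : C) g' ∧ IsPrimitiveRoot (ε : C) (p ^ s) ∧ g = g' * p ^ s ∧
      𝓛.Λ l ^ B * (𝓛.Λ j ^ A)⁻¹ ∈ GG C p 0 le_rfl one_pos ∧
      ‖((𝓛.Λ l ^ B * (𝓛.Λ j ^ A)⁻¹ * (Yl ^ B * (Yj ^ A)⁻¹) * (ζ' * ε) : Cˣ) : C) -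
        (1 + p * (B * (κl * ((Yl : Cˣ) : C)⁻¹) - A * (κj * ((Yj : Cˣ) : C)⁻¹)))‖ ≤
          ‖(p : C)‖ ^ 2 := by
  have hp0 := 𝓛.hp0
  have hp1 := 𝓛.hp1
  have hpu := 𝓛.hpu
  have haj : ‖(κj : C) * (Yj : C)⁻¹‖ ≤ 1 := nmul_le κj.2 (by rw [norm_inv, hYj, inv_one])
  have hal : ‖(κl : C) * (Yl : C)⁻¹‖ ≤ 1 := nmul_le κl.2 (by rw [norm_inv, hYl, inv_one])
  have hu1 : ∀ {u a : C}, ‖a‖ ≤ 1 → ‖u - (1 + p * a)‖ ≤ ‖(p : C)‖ ^ 2 →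
      ‖u - 1‖ ≤ ‖(p : C)‖ := by
    intro u a ha h
    have : u - 1 = (u - (1 + p * a)) + p * a := by ring
    rw [this]
    exact nadd_le (h.trans (pow_le_of_le_one (norm_nonneg _) hp1.le two_ne_zero))
      (nmul_le' le_rfl ha)
  set aj := (κj : C) * (Yj : C)⁻¹ with haj'
  set al := (κl : C) * (Yl : C)⁻¹ with hal'
  set uj := tj * (𝓛.Λ j * Yj) with huj
  set ul := tl * (𝓛.Λ l * Yl) with hul
  have huj1 : ‖uj‖ = 1 := neq_one ((hu1 haj ej2).trans_lt hp1) norm_one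
  have hul1 : ‖ul‖ = 1 := neq_one ((hu1 hal el2).trans_lt hp1) norm_one
  have huj0 : uj ≠ 0 := norm_pos_iff.1 (by rw [huj1]; exact one_pos)
  have htj0 : tj ≠ 0 := by
    rintro rfl
    apply huj0
    rw [huj, zero_mul]
  have hΛn : ∀ i, ‖((𝓛.Λ i : Cˣ) : C)‖ = ‖(p : C)‖⁻¹ ^ (𝓛.w i * 𝓛.e) := fun i =>
    Lam_norm hp0 hpu (𝓛.hΛ i)
  have htn : ∀ {t : C} {i : Fin n} {Y : Cˣ}, ‖(Y : C)‖ = 1 → ‖t * (𝓛.Λ i * Y)‖ = 1 →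
      ‖t‖ = ‖(p : C)‖ ^ (𝓛.w i * 𝓛.e) := by
    intro t i Y hY h
    rw [norm_mul, norm_mul, hY, mul_one, hΛn, inv_pow] at h
    have h2 : 0 < ‖(p : C)‖ ^ (𝓛.w i * 𝓛.e) := pow_pos hp0 _
    field_simp at h
    exact h
  have hjn := htn hYj huj1
  have hln := htn hYl hul1
  have hζn : ‖ζ‖ = 1 := by
    have h1 : ‖ζ‖ ^ g = 1 := by rw [← norm_pow, hζ.pow_eq_one, norm_one]
    exact (pow_eq_one_iff_of_nonneg (norm_nonneg _) hg.ne').1 h1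
  have hABw : B * 𝓛.w l = A * 𝓛.w j := by
    have h1 := congrArg norm hq
    rw [norm_mul, norm_pow, norm_pow, hζn, one_mul, hjn, hln, ← pow_mul, ← pow_mul] at h1
    have h3 := pow_right_injective₀ hp0 hp1.ne h1
    have h4 : B * 𝓛.w l * 𝓛.e = A * 𝓛.w j * 𝓛.e := by
      have : 𝓛.w l * 𝓛.e * B = 𝓛.w j * 𝓛.e * A := h3
      calc B * 𝓛.w l * 𝓛.e = 𝓛.w l * 𝓛.e * B := by ring
        _ = 𝓛.w j * 𝓛.e * A := this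
        _ = A * 𝓛.w j * 𝓛.e := by ring
    exact Nat.eq_of_mul_eq_mul_right 𝓛.he h4
  obtain ⟨g', s, ζ', ε, hgg, hg'p, hζ', hε, hζe⟩ := root_decomp (p := p) hg hζ
  have hg'0 : 0 < g' := Nat.pos_of_ne_zero (by
    rintro rfl
    rw [zero_mul] at hgg
    omega)
  have hζ'0 : ζ' ≠ 0 := hζ'.ne_zero hg'0.ne'
  have hε0 : ε ≠ 0 := hε.ne_zero (pow_pos hpf.out.pos _).ne'
  refine ⟨g', s, Units.mk0 ζ' hζ'0, Units.mk0 ε hε0, hABw, hg'0, hg'p, hζ', hε, hgg, ?_, ?_⟩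
  · -- the unit part
    have h1 := mul_mem (pow_mem (𝓛.hΛ l) B) (inv_mem (pow_mem (𝓛.hΛ j) A))
    have e1 : (𝓛.Λ l * 𝓛.pu ^ (𝓛.w l * 𝓛.e)) ^ B * ((𝓛.Λ j * 𝓛.pu ^ (𝓛.w j * 𝓛.e)) ^ A)⁻¹ =
        𝓛.Λ l ^ B * (𝓛.Λ j ^ A)⁻¹ := by
      rw [mul_pow, mul_pow, ← pow_mul, ← pow_mul, mul_inv]
      have e2 : 𝓛.w l * 𝓛.e * B = 𝓛.w j * 𝓛.e * A := by
        calc 𝓛.w l * 𝓛.e * B = (B * 𝓛.w l) * 𝓛.e := by ring
          _ = (A * 𝓛.w j) * 𝓛.e := by rw [hABw]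
          _ = 𝓛.w j * 𝓛.e * A := by ring
      rw [e2]
      have e3 : 𝓛.Λ l ^ B * 𝓛.pu ^ (𝓛.w j * 𝓛.e * A) * ((𝓛.Λ j ^ A)⁻¹ *
          (𝓛.pu ^ (𝓛.w j * 𝓛.e * A))⁻¹) =
        𝓛.Λ l ^ B * (𝓛.Λ j ^ A)⁻¹ * (𝓛.pu ^ (𝓛.w j * 𝓛.e * A) *
          (𝓛.pu ^ (𝓛.w j * 𝓛.e * A))⁻¹) := by ac_rfl
      rw [e3, mul_inv_cancel, mul_one]
    rwa [e1] at h1
  · -- second order expansion
    have hΛj0 : (𝓛.Λ j : C) ≠ 0 := (𝓛.Λ j).ne_zero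
    have hΛl0 : (𝓛.Λ l : C) ≠ 0 := (𝓛.Λ l).ne_zero
    have hYj0 : (Yj : C) ≠ 0 := Yj.ne_zero
    have hYl0 : (Yl : C) ≠ 0 := Yl.ne_zero
    have fj := pow_expand hp1.le haj ej2 huj1.le A
    have fl := pow_expand hp1.le hal el2 hul1.le B
    have hAj : ‖(A : C) * aj‖ ≤ 1 := nmul_le (nnat A) haj
    have hBl : ‖(B : C) * al‖ ≤ 1 := nmul_le (nnat B) hal
    have e3 : ((𝓛.Λ l ^ B * (𝓛.Λ j ^ A)⁻¹ * (Yl ^ B * (Yj ^ A)⁻¹) *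
        (Units.mk0 ζ' hζ'0 * Units.mk0 ε hε0) : Cˣ) : C) = ul ^ B * (uj ^ A)⁻¹ := by
      simp only [Units.val_mul, Units.val_inv_eq_inv_val, Units.val_pow_eq_pow_val, Units.val_mk0]
      rw [hul, huj, mul_pow, mul_pow, hq, ← hζe, mul_pow, mul_pow]
      field_simp
    rw [e3]
    have e4 : ul ^ B * (uj ^ A)⁻¹ - (1 + p * (B * al - A * aj)) =
        ((ul ^ B - (1 + p * (B * al))) - (uj ^ A - (1 + p * (A * aj))) -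
          (uj ^ A - 1) * (p * (B * al - A * aj))) * (uj ^ A)⁻¹ := by
      have : uj ^ A ≠ 0 := pow_ne_zero _ huj0
      field_simp
      ring
    rw [e4]
    refine nmul_le' (nsub_le (nsub_le fl fj) ?_) ?_
    · rw [norm_mul, sq]
      have h1 := hu1 hAj fj
      have h2 : ‖(p : C) * (B * al - A * aj)‖ ≤ ‖(p : C)‖ := nmul_le' le_rfl (nsub_le hBl hAj)
      have := norm_nonneg (uj ^ A - 1)
      gcongr
    · rw [norm_inv, norm_pow, huj1, one_pow, inv_one]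

end pair

section main

variable {C : Type} [NormedField C] [IsUltrametricDist C] [CompleteSpace C] [CharZero C]
  [IsAlgClosed C] {p : ℕ} [hpf : Fact p.Prime] {k : Type}
  [Field k] {n N W M d D : ℕ} (𝓛 : Loc C p k n N W M d D)

/-- wild torsion when a bad coordinate is related to a good one -/
theorem exc_case3 {x : Fin n → C} (hx : 𝓛.Pt x) {Y : Fin n → Cˣ} {X : Fin n → QA}
    {K : ℕ} {κ : Fin n → OO C} {tq : Fin n → C} (hT : Tq 𝓛 K κ x X tq) {a : Fin n} {s : Bool} {z : C}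
    {e : PowerSeries 𝓛.R →+* C}
    (hz : ‖z‖ < 1) (hC : ∀ r, e (PowerSeries.C r) = 𝓛.ψ r) (heX : e PowerSeries.X = z)
    (hn : ∀ F, ‖e F‖ ≤ 1)
    (hs : (‖x a‖ < 1 ∧ s = false ∧ z ^ N = x a) ∨ (1 < ‖x a‖ ∧ s = true ∧ z ^ N = (x a)⁻¹))
    (hzp : ‖(p : C)‖ < ‖z‖ ^ N)
    {j l m : Fin n} (hja : j ≠ a) (hla : l ≠ a) (hma : m ≠ a) (hjl : j ≠ l)
    {y y' y'' : (PowerSeries 𝓛.R)ˣ} (hy : y ∈ 𝓛.𝓡.ys a s j) (hy' : y' ∈ 𝓛.𝓡.ys a s l)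
    (hxj : x j = e (y : PowerSeries 𝓛.R)) (hxl : x l = e (y' : PowerSeries 𝓛.R))
    (hxm : x m = e (y'' : PowerSeries 𝓛.R))
    (hYj : (Y j : C) = x j) (hYl : (Y l : C) = x l) (hYm : (Y m : C) = x m)
    {A B : ℕ} (hA : 0 < A) (hB : 0 < B) (hAW : A ≤ W) (hBW : B ≤ W) {ε : Cˣ} {t : ℕ}
    (hε : IsPrimitiveRoot (ε : C) (p ^ (t + 1)))
    (hG : (Y l ^ B * (Y j ^ A)⁻¹) * ε ∈ GG C p ‖(p : C)‖ (norm_nonneg _) 𝓛.hp1)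
    {τ w : ℍ} {a₁ b₁ c₁ d₁ : ℤ} (hdet : 0 < a₁ * d₁ - b₁ * c₁)
    (hw : (w : ℂ) * (c₁ * τ + d₁) = a₁ * τ + b₁) (hτ : rA (X m) = jj τ) (hw' : rA (X a) = jj w) :
    t ≤ 1 := by
  have hM := 𝓛.hM
  have hxmn : ‖x m‖ = 1 := by rw [hxm]; exact Loc.ev_unit_norm hn y''
  have hxmp : ‖(p : C)‖ < ‖x m‖ := by rw [hxmn]; exact 𝓛.hp1
  have hxap : ‖(p : C)‖ < ‖x a‖ := by
    rcases hs with ⟨-, -, h⟩ | ⟨h, -, -⟩
    · rw [← h, norm_pow]; exact hzp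
    · exact 𝓛.hp1.trans h
  obtain ⟨A', B', g, ζ, hA', hB', hAB', hg0, hζ, hq, -⟩ :=
    hT.rel m a hxmp hxap τ w a₁ b₁ c₁ d₁ hdet hw hτ hw'
  have hxa0 : x a ≠ 0 := norm_pos_iff.1 (𝓛.hp0.trans hxap)
  have hz0 : z ≠ 0 := by
    rintro rfl
    rcases hs with ⟨-, -, h⟩ | ⟨-, -, h⟩
    · rw [zero_pow 𝓛.hN.ne'] at h
      exact hxa0 h.symm
    · rw [zero_pow 𝓛.hN.ne'] at h
      exact inv_ne_zero hxa0 h.symm
  set η : Cˣ := Units.mk0 z hz0 with hη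
  obtain ⟨μ, hμ0, hμN, hμ⟩ : ∃ μ : ℤ, μ ≠ 0 ∧ μ.natAbs ≤ N ∧ ((η ^ μ : Cˣ) : C) = x a := by
    have hN := 𝓛.hN
    rcases hs with ⟨-, -, h⟩ | ⟨-, -, h⟩
    · refine ⟨N, by omega, by simp, ?_⟩
      rw [zpow_natCast, Units.val_pow_eq_pow_val, hη, Units.val_mk0, h]
    · refine ⟨-N, by omega, by simp, ?_⟩
      rw [zpow_neg, zpow_natCast, Units.val_inv_eq_inv_val, Units.val_pow_eq_pow_val, hη,
        Units.val_mk0, h, inv_inv]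
  have hqi0 := hT.ne a hxap
  have hqm0 := hT.ne m hxmp
  have hζ0 : ζ ≠ 0 := hζ.ne_zero hg0.ne'
  -- the contact
  have halt := 𝓛.𝓡.br a s j l hja.symm hla.symm hjl y hy y' hy' A hAW B hBW hB
  rcases halt with ⟨m', h1, h2⟩ | halt
  · exfalso
    refine ev_ne_zero hC heX hn (fun r hr => 𝓛.ψ_unit hr) hz hz0 h1 (fun i hi => h2 i hi) ?_
    rw [map_E2, ← hxj, ← hxl]
    have : e.comp (PowerSeries.C (R := 𝓛.R)) = 𝓛.ψ := RingHom.ext hC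
    rw [this]
    exact hx.r1 j l hjl
  obtain ⟨f, hf, hfD, w₁, hw₁, hw₁n, hcon⟩ := ps_contact hC heX hn 𝓛.ψ_Nr hz halt
  have hF : ((Y l ^ B * (Y j ^ A)⁻¹ : Cˣ) : C) =
      e ((y' : PowerSeries 𝓛.R) ^ B * ((y⁻¹ : (PowerSeries 𝓛.R)ˣ) : PowerSeries 𝓛.R) ^ A) := by
    have h1 : e ((y⁻¹ : (PowerSeries 𝓛.R)ˣ) : PowerSeries 𝓛.R) = ((Y j : Cˣ) : C)⁻¹ := by
      rw [hYj, hxj]
      apply eq_inv_of_mul_eq_one_left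
      rw [← map_mul, ← Units.val_mul, inv_mul_cancel, Units.val_one, map_one]
    rw [Units.val_mul, Units.val_pow_eq_pow_val, Units.val_inv_eq_inv_val,
      Units.val_pow_eq_pow_val, map_mul, map_pow, map_pow, h1, hYl, hxl, inv_pow]
  rw [← hF] at hcon
  have hxj0 : x j ≠ 0 := by rw [← hYj]; exact (Y j).ne_zero
  have hxl0 : x l ≠ 0 := by rw [← hYl]; exact (Y l).ne_zero
  have hxm0 : x m ≠ 0 := by rw [← hYm]; exact (Y m).ne_zero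
  have hb2 := 𝓛.b2
  have hb5 := 𝓛.b5
  have hzpow : ∀ i, 𝓛.Λ i * 𝓛.pu ^ ((𝓛.w i : ℤ) * 𝓛.e) ∈ GG C p 0 le_rfl one_pos := by
    intro i
    have := 𝓛.hΛ i
    rwa [← zpow_natCast, Nat.cast_mul] at this
  refine wild_exc2 𝓛.red 𝓛.hker (W := W) 𝓛.b1 (by omega) 𝓛.b3 𝓛.b4 hb5 𝓛.hp0 𝓛.hp1
    (η := η) (F := Y l ^ B * (Y j ^ A)⁻¹) (Yl := Y m) hz hf hfD (𝓛.ψ_Nr _) hw₁ hw₁n hcon hε hG
    ?_ hμ0 hμN 𝓛.he (𝓛.hw a).1 (𝓛.hw m).1 (𝓛.hw m).2 𝓛.hpu (hzpow a) (hzpow m)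
    (qi := Units.mk0 _ hqi0) (ql := Units.mk0 _ hqm0) ?_ ?_ hAB' hB'
    (ζ := Units.mk0 ζ hζ0) hg0 (Units.ext hζ.pow_eq_one)
    (Units.ext (by
      rw [Units.val_mul, Units.val_pow_eq_pow_val, Units.val_pow_eq_pow_val]
      exact hq)) ?_
  · refine GG_of_close (𝓛.ψ_Nr (PowerSeries.coeff 0 (y'' : PowerSeries 𝓛.R)))
      (𝓛.ψ_unit (Loc.unit_coeff y'')) ?_
    rw [hYm, hxm]
    exact ev_sub_le hC heX hn hz.le _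
  · have hxap' : ‖x a‖ < ‖(p : C)‖⁻¹ := by
      rcases hs with ⟨h, -, -⟩ | ⟨-, -, h⟩
      · exact h.trans ((one_lt_inv₀ 𝓛.hp0).2 𝓛.hp1)
      · have h2 : ‖x a‖⁻¹ = ‖z‖ ^ N := by rw [← norm_inv, ← h, norm_pow]
        rw [← h2] at hzp
        exact (lt_inv_comm₀ 𝓛.hp0 (norm_pos_iff.2 hxa0)).1 hzp
    have h1 := hT.lin a hxap hxap'
    rw [mul_assoc, Units.val_mul, Units.val_mul, hμ]
    exact h1
  · have h1 := hT.lin m hxmp (by rw [hxmn]; exact (one_lt_inv₀ 𝓛.hp0).2 𝓛.hp1)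
    rw [hxmn, inv_one, mul_one] at h1
    rw [mul_assoc, Units.val_mul, Units.val_mul, hYm]
    exact h1
  · intro c hc hcW
    have hv : Bv M (vec j l A B) := Bv_vec (by omega) (by omega) hjl
    have hw : Bv M (sing m c) := Bv_sing (by omega)
    have hvw : LI (vec j l A B) (sing m c) := LI_sing hjl hA hB hc
    refine ⟨fun q => 𝓛.ψO (cf (𝓛.𝓡.h (vec j l A B) (sing m c)) q), fun q => 𝓛.ψ_Nr _,
      𝓛.hNC hv hw hvw, ?_⟩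
    refine 𝓛.relsum hx hv hw hvw ?_ ?_ ?_
    · intro i hi
      by_cases h1 : i = j
      · rw [h1]; exact hxj0
      · by_cases h2 : i = l
        · rw [h2]; exact hxl0
        · by_cases h3 : i = m
          · rw [h3]; exact hxm0
          · simp [vec, sing, h1, h2, h3] at hi
    · rw [prod_vec x hjl hxj0, Units.val_mul, Units.val_pow_eq_pow_val, Units.val_inv_eq_inv_val,
        Units.val_pow_eq_pow_val, hYj, hYl]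
    · rw [prod_sing, Units.val_zpow_eq_zpow_val, hYm]

/-- the order of the tame part is bounded when the residues are in a finite set -/
theorem order_bound3 {S : Set k} (hS : S.Finite) : ∃ G : ℕ, ∀ (K : ℕ) (κ : Fin n → OO C)
    (Y : Fin n → Cˣ) (X : Fin n → QA) (j l : Fin n) (A B g' s : ℕ) (ζ' ε : Cˣ),
    PJ 𝓛 K κ Y X j l A B g' s ζ' ε → ∀ uj ul : OO C, (uj : C) = Y j → (ul : C) = Y l →
    ‖((Y j : Cˣ) : C)‖ = 1 → ‖((Y l : Cˣ) : C)‖ = 1 → 𝓛.red uj ∈ S → 𝓛.red ul ∈ S → g' ≤ G := by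
  classical
  let mb : Fin n → Fin n → ℕ → ℕ → k := fun j l A B =>
    if h : ‖((𝓛.Λ l ^ B * (𝓛.Λ j ^ A)⁻¹ : Cˣ) : C)‖ ≤ 1 then 𝓛.red ⟨_, h⟩ else 0
  let f : k × k × Fin (W + 1) × Fin (W + 1) × Fin n × Fin n → ℕ := fun q =>
    orderOf (q.1 ^ (q.2.2.1 : ℕ) * (mb q.2.2.2.2.1 q.2.2.2.2.2 q.2.2.1 q.2.2.2.1 *
      q.2.1 ^ (q.2.2.2.1 : ℕ))⁻¹)
  have hfin : (f '' (S ×ˢ (S ×ˢ Set.univ))).Finite :=
    (hS.prod (hS.prod (Set.finite_univ))).image f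
  obtain ⟨G, hG⟩ := hfin.bddAbove
  refine ⟨G, ?_⟩
  intro K κ Y X j l A B g' s ζ' ε hPI uj ul huj hul hYj hYl hSj hSl
  have h1 : ‖(ζ' : C)‖ ^ g' = 1 := by rw [← norm_pow, hPI.hζ.pow_eq_one, norm_one]
  have hζn : ‖(ζ' : C)‖ = 1 := (pow_eq_one_iff_of_nonneg (norm_nonneg _) hPI.hg.ne').1 h1
  set Z : OO C := ⟨(ζ' : C), hζn.le⟩ with hZ
  have hord : orderOf (𝓛.red Z) = g' := by
    refine IsPrimitiveRoot.eq_orderOf ?_ |>.symm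
    refine ⟨?_, fun m hm => ?_⟩
    · rw [← map_pow]
      have : Z ^ g' = 1 := Subtype.ext hPI.hζ.pow_eq_one
      rw [this, map_one]
    · apply hPI.hζ.dvd_of_pow_eq_one
      rw [← map_pow, ← sub_eq_zero, ← map_one 𝓛.red, ← map_sub, 𝓛.hker] at hm
      have hm' : ‖(ζ' : C) ^ m - 1‖ < 1 := hm
      refine tame_eq_one (m := g') ?_ ?_ hm'
      · have hco : IsCoprime (g' : ℤ) (p : ℤ) := Nat.isCoprime_iff_coprime.2 hPI.hcop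
        obtain ⟨u, v, huv⟩ := hco
        have h2 : (u : C) * (g' : C) - 1 = -(v * p) := by
          have := congrArg (Int.cast : ℤ → C) huv
          push_cast at this
          linear_combination this
        have h3 : ‖(u : C) * (g' : C)‖ = 1 := by
          refine neq_one (y := 1) ?_ norm_one
          rw [h2, norm_neg]
          exact (nmul_le (nint v) le_rfl).trans_lt 𝓛.hp1
        rw [norm_mul] at h3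
        have h4 := nint (C := C) u
        have h5 := nnat (C := C) g'
        have h6 := norm_nonneg (u : C)
        have h7 := norm_nonneg (g' : C)
        nlinarith
      · rw [← pow_mul, mul_comm, pow_mul, hPI.hζ.pow_eq_one, one_pow]
  set μ : Cˣ := 𝓛.Λ l ^ B * (𝓛.Λ j ^ A)⁻¹ with hμ
  have hμn : ‖(μ : C)‖ = 1 := GG_norm hPI.hμ
  have hclose := hPI.close hYj hYl
  have hεlt : ‖(ε : C) - 1‖ < 1 := ppow_root_lt 𝓛.hp1 hPI.hε.pow_eq_one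
  have hclose2 : ‖((μ * (Y l ^ B * (Y j ^ A)⁻¹) * ζ' : Cˣ) : C) - 1‖ < 1 := by
    have e1 : ((μ * (Y l ^ B * (Y j ^ A)⁻¹) * ζ' : Cˣ) : C) - 1 =
        (((μ * (Y l ^ B * (Y j ^ A)⁻¹) * (ζ' * ε) : Cˣ) : C) - 1) -
        ((μ * (Y l ^ B * (Y j ^ A)⁻¹) * ζ' : Cˣ) : C) * ((ε : C) - 1) := by
      simp only [Units.val_mul]; ring
    rw [e1]
    refine nsub_lt (hclose.trans_lt 𝓛.hp1) ?_
    rw [norm_mul]
    have e2 : ‖((μ * (Y l ^ B * (Y j ^ A)⁻¹) * ζ' : Cˣ) : C)‖ = 1 := by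
      simp only [Units.val_mul, Units.val_inv_eq_inv_val, Units.val_pow_eq_pow_val, norm_mul,
        norm_inv, norm_pow, hYj, hYl, hμn, hζn, one_pow, inv_one, mul_one]
    rw [e2, one_mul]
    exact hεlt
  set μO : OO C := ⟨(μ : C), hμn.le⟩ with hμO
  have hmb : mb j l A B = 𝓛.red μO := by
    show (if h : ‖((𝓛.Λ l ^ B * (𝓛.Λ j ^ A)⁻¹ : Cˣ) : C)‖ ≤ 1 then 𝓛.red ⟨_, h⟩ else 0) = _
    rw [dif_pos hμn.le]
  have hrel : 𝓛.red (μO * ul ^ B * Z) = 𝓛.red (uj ^ A) := by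
    apply 𝓛.red_congr
    show ‖(μ : C) * (ul : C) ^ B * (ζ' : C) - (uj : C) ^ A‖ < 1
    rw [hul, huj]
    have hY0 : ((Y j : Cˣ) : C) ≠ 0 := (Y j).ne_zero
    have e1 : (μ : C) * (Y l : C) ^ B * (ζ' : C) - (Y j : C) ^ A =
        (Y j : C) ^ A * (((μ * (Y l ^ B * (Y j ^ A)⁻¹) * ζ' : Cˣ) : C) - 1) := by
      simp only [Units.val_mul, Units.val_inv_eq_inv_val, Units.val_pow_eq_pow_val]
      field_simp
    rw [e1, norm_mul, norm_pow, hYj, one_pow, one_mul]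
    exact hclose2
  have hne : ∀ x : OO C, ‖(x : C)‖ = 1 → 𝓛.red x ≠ 0 := by
    intro x hx
    rw [Ne, 𝓛.hker, hx]
    exact lt_irrefl 1
  have hval : 𝓛.red Z = 𝓛.red uj ^ A * (mb j l A B * 𝓛.red ul ^ B)⁻¹ := by
    rw [map_mul, map_mul, map_pow, map_pow] at hrel
    rw [hmb, ← hrel]
    have h1 := hne μO hμn
    have h2 := hne ul (by rw [hul]; exact hYl)
    field_simp
  rw [← hord, hval]
  apply hG
  have hA := hPI.hAW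
  have hB := hPI.hBW
  exact ⟨(𝓛.red uj, 𝓛.red ul, ⟨A, by omega⟩, ⟨B, by omega⟩, j, l), ⟨hSj, hSl, trivial⟩, rfl⟩

/-- no wild torsion for two distinct pairs -/
theorem no_wild3 {x : Fin n → C} (hx : 𝓛.Pt x) {K : ℕ} {κ : Fin n → OO C} {Y : Fin n → Cˣ}
    {X : Fin n → QA} {j l j' l' : Fin n} (hYj : (Y j : C) = x j) (hYl : (Y l : C) = x l)
    (hYj' : (Y j' : C) = x j') (hYl' : (Y l' : C) = x l') (hnj : ‖x j‖ = 1) (hnl : ‖x l‖ = 1)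
    (hnj' : ‖x j'‖ = 1) (hnl' : ‖x l'‖ = 1) (hjl : j ≠ l) (hjl' : j' ≠ l')
    (hne : ¬ ((j' = j ∧ l' = l) ∨ (j' = l ∧ l' = j))) {A B g₁ s₁ A' B' g₂ s₂ : ℕ}
    {ζ₁ ε₁ ζ₂ ε₂ : Cˣ} (h₁ : PJ 𝓛 K κ Y X j l A B g₁ s₁ ζ₁ ε₁)
    (h₂ : PJ 𝓛 K κ Y X j' l' A' B' g₂ s₂ ζ₂ ε₂) : s₁ = 0 ∧ s₂ = 0 := by
  have hG₁ := h₁.mem_GG (by rw [hYj]; exact hnj) (by rw [hYl]; exact hnl)
  have hG₂ := h₂.mem_GG (by rw [hYj']; exact hnj') (by rw [hYl']; exact hnl')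
  by_contra hcon
  rcases le_total s₂ s₁ with h12 | h12
  · have hs : s₁ ≠ 0 := by rintro rfl; exact hcon ⟨rfl, by omega⟩
    obtain ⟨s, rfl⟩ : ∃ s, s₁ = s + 1 := ⟨s₁ - 1, by omega⟩
    refine 𝓛.no_wild hx hYj hYl hYj' hYl' hjl hjl' hne h₁.hA h₁.hB h₂.hB h₁.hAW h₁.hBW h₂.hAW
      h₂.hBW h₁.hε ?_ hG₁ hG₂
    obtain ⟨q, hq⟩ := Nat.pow_dvd_pow p h12
    rw [hq, pow_mul, h₂.hε.pow_eq_one, one_pow]
  · have hs : s₂ ≠ 0 := by rintro rfl; exact hcon ⟨by omega, rfl⟩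
    obtain ⟨s, rfl⟩ : ∃ s, s₂ = s + 1 := ⟨s₂ - 1, by omega⟩
    refine 𝓛.no_wild hx hYj' hYl' hYj hYl hjl' hjl ?_ h₂.hA h₂.hB h₁.hB h₂.hAW h₂.hBW h₁.hAW
      h₁.hBW h₂.hε ?_ hG₂ hG₁
    · rintro (⟨h1, h2⟩ | ⟨h1, h2⟩)
      · exact hne (Or.inl ⟨h1.symm, h2.symm⟩)
      · exact hne (Or.inr ⟨h2.symm, h1.symm⟩)
    · obtain ⟨q, hq⟩ := Nat.pow_dvd_pow p h12
      rw [hq, pow_mul, h₁.hε.pow_eq_one, one_pow]

/-- The local theorem. -/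
theorem local_main3 [CharP k p] [IsAlgClosed k] (K : ℕ) (κ : Fin n → OO C) :
    ∃ G : ℕ, ∀ (X : Fin n → QA) (x : Fin n → C) (tq : Fin n → C),
    𝓛.Pt x → Tq 𝓛 K κ x X tq → ∀ (r : ℕ) (Z : SpecialDatum n r), r + 2 ≤ n →
    (fun i => rA (X i)) ∈ Z.locus → ∃ j l : Fin n, j ≠ l ∧ ∃ N' : ℕ, 0 < N' ∧ N' ≤ G ∧
      PsiE ιZ (mP N') (mD N') (rA (X j)) (rA (X l)) = 0 := by
  classical
  -- the tame sets
  let J := (Fin n × Fin n × Fin (W + 1) × Fin (W + 1)) × (Fin n × Fin n × Fin (W + 1) × Fin (W + 1))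
  have hT : ∀ q : J, ∃ T : Set (Fin n → k), T.Finite ∧ (q.1.1 ≠ q.1.2.1 → q.2.1 ≠ q.2.2.1 →
      ¬ ((q.2.1 = q.1.1 ∧ q.2.2.1 = q.1.2.1) ∨ (q.2.1 = q.1.2.1 ∧ q.2.2.1 = q.1.1)) →
      0 < (q.1.2.2.1 : ℕ) → 0 < (q.1.2.2.2 : ℕ) → 0 < (q.2.2.2.2 : ℕ) →
      𝓛.Λ q.1.2.1 ^ (q.1.2.2.2 : ℕ) * (𝓛.Λ q.1.1 ^ (q.1.2.2.1 : ℕ))⁻¹ ∈ GG C p 0 le_rfl one_pos →
      𝓛.Λ q.2.2.1 ^ (q.2.2.2.2 : ℕ) * (𝓛.Λ q.2.1 ^ (q.2.2.2.1 : ℕ))⁻¹ ∈ GG C p 0 le_rfl one_pos →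
      ∀ (x : Fin n → C), 𝓛.Pt x → ∀ (xO : Fin n → OO C)
      (Y : Fin n → Cˣ), (∀ i, (xO i : C) = x i) → (∀ i, (Y i : C) = xO i) →
      (∀ i, ‖(xO i : C)‖ = 1) →
      ∀ (ζ ζ' : Cˣ) (f f' : ℕ), 0 < f → (ζ : C) ^ p ^ f = ζ → 0 < f' → (ζ' : C) ^ p ^ f' = ζ' →
      ‖((𝓛.Λ q.1.2.1 ^ (q.1.2.2.2 : ℕ) * (𝓛.Λ q.1.1 ^ (q.1.2.2.1 : ℕ))⁻¹ *
        (Y q.1.2.1 ^ (q.1.2.2.2 : ℕ) * (Y q.1.1 ^ (q.1.2.2.1 : ℕ))⁻¹) * ζ : Cˣ) : C) -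
        (1 + p * ((q.1.2.2.2 : ℕ) * (κ q.1.2.1 * ((Y q.1.2.1 : Cˣ) : C)⁻¹) -
          (q.1.2.2.1 : ℕ) * (κ q.1.1 * ((Y q.1.1 : Cˣ) : C)⁻¹)))‖ ≤ ‖(p : C)‖ ^ 2 →
      ‖((𝓛.Λ q.2.2.1 ^ (q.2.2.2.2 : ℕ) * (𝓛.Λ q.2.1 ^ (q.2.2.2.1 : ℕ))⁻¹ *
        (Y q.2.2.1 ^ (q.2.2.2.2 : ℕ) * (Y q.2.1 ^ (q.2.2.2.1 : ℕ))⁻¹) * ζ' : Cˣ) : C) -
        (1 + p * ((q.2.2.2.2 : ℕ) * (κ q.2.2.1 * ((Y q.2.2.1 : Cˣ) : C)⁻¹) -
          (q.2.2.2.1 : ℕ) * (κ q.2.1 * ((Y q.2.1 : Cˣ) : C)⁻¹)))‖ ≤ ‖(p : C)‖ ^ 2 →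
      (fun i => 𝓛.red (xO i)) ∈ T) := by
    rintro ⟨⟨j, l, A, B⟩, ⟨j', l', A', B'⟩⟩
    by_cases h : j ≠ l ∧ j' ≠ l' ∧ ¬ ((j' = j ∧ l' = l) ∨ (j' = l ∧ l' = j)) ∧ 0 < (A : ℕ) ∧
        0 < (B : ℕ) ∧ 0 < (B' : ℕ) ∧
        𝓛.Λ l ^ (B : ℕ) * (𝓛.Λ j ^ (A : ℕ))⁻¹ ∈ GG C p 0 le_rfl one_pos ∧
        𝓛.Λ l' ^ (B' : ℕ) * (𝓛.Λ j' ^ (A' : ℕ))⁻¹ ∈ GG C p 0 le_rfl one_pos
    · obtain ⟨h1, h2, h3, h4, h5, h6, h7, h8⟩ := h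
      obtain ⟨T, hT, hT'⟩ := 𝓛.tame_T κ h1 h2 h3 h4 h5 h6 (Nat.lt_succ_iff.1 A.2)
        (Nat.lt_succ_iff.1 B.2) (Nat.lt_succ_iff.1 A'.2) (Nat.lt_succ_iff.1 B'.2) h7 h8
      exact ⟨T, hT, fun _ _ _ _ _ _ _ _ => hT'⟩
    · exact ⟨∅, Set.finite_empty, fun h1 h2 h3 h4 h5 h6 h7 h8 =>
        absurd ⟨h1, h2, h3, h4, h5, h6, h7, h8⟩ h⟩
  choose T hTfin hTmem using hT
  set S : Set k := (⋃ q : Fin n × Bool × Fin n, ((fun y : (PowerSeries 𝓛.R)ˣ =>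
      𝓛.χ (PowerSeries.coeff 0 (y : PowerSeries 𝓛.R))) '' {y | y ∈ 𝓛.𝓡.ys q.1 q.2.1 q.2.2})) ∪
      ⋃ q : J × Fin n, (fun t : Fin n → k => t q.2) '' (T q.1) with hS
  have hSfin : S.Finite := by
    refine Set.Finite.union (Set.finite_iUnion fun q => Set.Finite.image _ ?_)
      (Set.finite_iUnion fun q => (hTfin q.1).image _)
    exact Multiset.finite_toSet _
  obtain ⟨G₁, hG₁⟩ := order_bound3 𝓛 hSfin
  refine ⟨K * (W * W) * (G₁ * p ^ 2) ^ 2, ?_⟩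
  intro X x tq hx hT r Z hr hZ
  have hbig : ∀ i, ‖x i‖ = 1 → ‖(p : C)‖ < ‖x i‖ := fun i hi => by rw [hi]; exact 𝓛.hp1
  -- the units
  have hYex : ∀ i, ∃ y : Cˣ, ‖x i‖ = 1 → (y : C) = x i := by
    intro i
    by_cases h : ‖x i‖ = 1
    · exact ⟨Units.mk0 (x i) (norm_pos_iff.1 (by rw [h]; exact one_pos)), fun _ => rfl⟩
    · exact ⟨1, fun h' => absurd h' h⟩
  choose Y hY using hYex
  have hYn : ∀ i, ‖x i‖ = 1 → ‖((Y i : Cˣ) : C)‖ = 1 := fun i hi => by rw [hY i hi]; exact hi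
  have hgood1 : ∀ i, ‖x i‖ = 1 → 1 < ‖𝓛.φ (X i)‖ := fun i hi => hT.big i (hbig i hi)
  have hcm : ∀ i, Z.cls i = none → ‖𝓛.φ (X i)‖ ≤ 1 := by
    intro i hi
    obtain ⟨z, hz⟩ := hZ
    exact cm_norm (ψ := 𝓛.φ.comp iA) (psi_norm 𝓛.φ) rA_comp rfl (Z.isCM i) ((hz i).1 hi)
  have hnone : ∀ i, ‖x i‖ = 1 → Z.cls i ≠ none := by
    intro i hi h
    exact absurd (hgood1 i hi) (not_lt.2 (hcm i h))
  -- information on pairs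
  have hinfo : ∀ j l, ‖x j‖ = 1 → ‖x l‖ = 1 → (∃ c, Z.cls j = some c ∧ Z.cls l = some c) →
      ∃ (A B g' s : ℕ) (ζ' ε : Cˣ), PJ 𝓛 K κ Y X j l A B g' s ζ' ε := by
    intro j l hj hl ⟨c, hcj, hcl⟩
    obtain ⟨w, w', a, b, c', d', hdet, hrel, hw, hw'⟩ := class_rel Z hZ hcj hcl
    obtain ⟨A, B, g, ζ, hA, hB, hAB, hg, hζ, hq, N', hN0, hN, hΨ⟩ :=
      hT.rel j l (hbig j hj) (hbig l hl) w w' a b c' d' hdet hrel hw hw'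
    obtain ⟨g', s, ζ', ε, h4, h5, h6, h7, h8, hgg, h9, h10⟩ :=
      pair3 𝓛 (κj := κ j) (κl := κ l) hA hB hg hζ hq (hYn j hj) (hYn l hl)
        (by rw [hY j hj]; exact hT.sec j hj) (by rw [hY l hl]; exact hT.sec l hl)
    refine ⟨A, B, g', s, ζ', ε, hA, hB, ?_, ?_, h5, h6, h7, h8, h9, h10, N', hN0,
      by rw [← hgg]; exact hN, hΨ⟩
    · have h12 : A ∣ B * 𝓛.w l := ⟨_, h4⟩
      exact (Nat.le_of_dvd (𝓛.hw l).1 (hAB.dvd_of_dvd_mul_left h12)).trans (𝓛.hw l).2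
    · have h12 : B ∣ A * 𝓛.w j := ⟨_, h4.symm⟩
      exact (Nat.le_of_dvd (𝓛.hw j).1 (hAB.symm.dvd_of_dvd_mul_left h12)).trans (𝓛.hw j).2
  -- from the tame bound to the conclusion
  have hfin : ∀ j l, j ≠ l → ∀ (hj : ‖x j‖ = 1) (hl : ‖x l‖ = 1),
      𝓛.red ⟨x j, hj.le⟩ ∈ S → 𝓛.red ⟨x l, hl.le⟩ ∈ S →
      ∀ (A B g' s : ℕ) (ζ' ε : Cˣ), PJ 𝓛 K κ Y X j l A B g' s ζ' ε → s ≤ 2 →
      ∃ j l : Fin n, j ≠ l ∧ ∃ N' : ℕ, 0 < N' ∧ N' ≤ K * (W * W) * (G₁ * p ^ 2) ^ 2 ∧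
        PsiE ιZ (mP N') (mD N') (rA (X j)) (rA (X l)) = 0 := by
    intro j l hjl hj hl hSj hSl A B g' s ζ' ε h hs
    have h1 := hG₁ K κ Y X j l A B g' s ζ' ε h ⟨x j, hj.le⟩ ⟨x l, hl.le⟩ (hY j hj).symm
      (hY l hl).symm (hYn j hj) (hYn l hl) hSj hSl
    obtain ⟨N', hN0, hN, hΨ⟩ := h.hrel
    refine ⟨j, l, hjl, N', hN0, hN.trans ?_, hΨ⟩
    exact Nat.mul_le_mul (Nat.mul_le_mul le_rfl (Nat.mul_le_mul h.hAW h.hBW)) (Nat.pow_le_pow_left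
        (Nat.mul_le_mul h1 (Nat.pow_le_pow_right hpf.out.pos hs)) 2)
  -- the combinatorics
  by_cases hall : ∀ i, ‖x i‖ = 1
  · obtain ⟨j, -, l, -, hjl, hc⟩ := coll Z.cls Finset.univ (by simp; omega)
      (fun x _ => hnone x (hall x))
    obtain ⟨j', hj', l', hl', hjl', hc'⟩ := coll Z.cls (Finset.univ.erase l)
      (by rw [Finset.card_erase_of_mem (Finset.mem_univ l)]; simp; omega)
      (fun x _ => hnone x (hall x))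
    have h1 := Finset.ne_of_mem_erase hj'
    have h2 := Finset.ne_of_mem_erase hl'
    have hne : ¬ ((j' = j ∧ l' = l) ∨ (j' = l ∧ l' = j)) := by
      rintro (⟨-, h⟩ | ⟨h, -⟩)
      · exact h2 h
      · exact h1 h
    obtain ⟨A, B, g₁, s₁, ζ₁, ε₁, hP₁⟩ := hinfo j l (hall j) (hall l) hc
    obtain ⟨A', B', g₂, s₂, ζ₂, ε₂, hP₂⟩ := hinfo j' l' (hall j') (hall l') hc'
    obtain ⟨rfl, rfl⟩ := no_wild3 𝓛 hx (hY j (hall j)) (hY l (hall l)) (hY j' (hall j'))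
      (hY l' (hall l')) (hall j) (hall l) (hall j') (hall l') hjl hjl' hne hP₁ hP₂
    have hε₁ : ε₁ = 1 := Units.ext (by
      have := hP₁.hε.pow_eq_one
      simpa using this)
    have hε₂ : ε₂ = 1 := Units.ext (by
      have := hP₂.hε.pow_eq_one
      simpa using this)
    obtain ⟨f₁, hf₁, hff₁⟩ := fixed_of_pow_eq_one (p := p) hP₁.hcop hP₁.hζ.pow_eq_one
    obtain ⟨f₂, hf₂, hff₂⟩ := fixed_of_pow_eq_one (p := p) hP₂.hcop hP₂.hζ.pow_eq_one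
    have e₁ := hP₁.hexp
    have e₂ := hP₂.hexp
    rw [hε₁, mul_one] at e₁
    rw [hε₂, mul_one] at e₂
    have hTm := hTmem ((j, l, ⟨A, Nat.lt_succ_of_le hP₁.hAW⟩, ⟨B, Nat.lt_succ_of_le hP₁.hBW⟩),
      (j', l', ⟨A', Nat.lt_succ_of_le hP₂.hAW⟩, ⟨B', Nat.lt_succ_of_le hP₂.hBW⟩))
      hjl hjl' hne hP₁.hA hP₁.hB hP₂.hB hP₁.hμ hP₂.hμ x hx (fun i => ⟨x i, (hall i).le⟩) Y
      (fun i => rfl) (fun i => hY i (hall i)) hall ζ₁ ζ₂ f₁ f₂ hf₁ hff₁ hf₂ hff₂ e₁ e₂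
    have hmemS : ∀ i, 𝓛.red ⟨x i, (hall i).le⟩ ∈ S := by
      intro i
      right
      rw [Set.mem_iUnion]
      exact ⟨(_, i), _, hTm, rfl⟩
    exact hfin j l hjl (hall j) (hall l) (hmemS j) (hmemS l) A B g₁ 0 ζ₁ ε₁ hP₁ (by norm_num)
  · push Not at hall
    obtain ⟨a, ha⟩ := hall
    have hg : ∀ j, j ≠ a → ‖x j‖ = 1 := fun j hj =>
      (𝓛.one_bad hx hj).resolve_right ha
    obtain ⟨s, z, e, hz, hC, heX, hn, hs, hroot⟩ := 𝓛.bad_data hx ha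
    have hmemS : ∀ i (hi : ‖x i‖ = 1), i ≠ a → 𝓛.red ⟨x i, hi.le⟩ ∈ S := by
      intro i hi hia
      obtain ⟨y, hy, hxy⟩ := hroot i hia
      left
      rw [Set.mem_iUnion]
      refine ⟨(a, s, i), y, hy, ?_⟩
      show 𝓛.red (𝓛.ψO _) = _
      symm
      apply 𝓛.red_congr
      show ‖x i - 𝓛.ψ _‖ < 1
      rw [hxy]
      exact (ev_sub_le hC heX hn hz.le _).trans_lt hz
    obtain ⟨j, hj, l, hl, hjl, hc⟩ := coll Z.cls (Finset.univ.erase a)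
      (by rw [Finset.card_erase_of_mem (Finset.mem_univ a)]; simp; omega)
      (fun x hx => hnone x (hg x (Finset.ne_of_mem_erase hx)))
    have hja := Finset.ne_of_mem_erase hj
    have hla := Finset.ne_of_mem_erase hl
    obtain ⟨A, B, g₁, s₁, ζ₁, ε₁, hP₁⟩ := hinfo j l (hg j hja) (hg l hla) hc
    have hG := hP₁.mem_GG (hYn j (hg j hja)) (hYn l (hg l hla))
    refine hfin j l hjl (hg j hja) (hg l hla) (hmemS j (hg j hja) hja)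
      (hmemS l (hg l hla) hla) A B g₁ s₁ ζ₁ ε₁ hP₁ ?_
    obtain ⟨y, hy, hxy⟩ := hroot j hja
    obtain ⟨y', hy', hxy'⟩ := hroot l hla
    by_cases hsmall : ‖z‖ ^ N ≤ ‖(p : C)‖
    · by_contra hs₁
      obtain ⟨t, rfl⟩ : ∃ t, s₁ = t + 1 := ⟨s₁ - 1, by omega⟩
      exact 𝓛.no_wild_cm (Y := Y) (j := j) (l := l) hz hC heX hn hsmall
        (by rw [hY j (hg j hja)]; exact hxy) (by rw [hY l (hg l hla)]; exact hxy') hP₁.hε hG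
    · push Not at hsmall
      have hcls : Z.cls a ≠ none := by
        intro hcls
        have h1 := hcm a hcls
        have h2 : ‖(p : C)‖ < ‖x a‖ := by
          rcases hs with ⟨-, -, h⟩ | ⟨h, -, -⟩
          · rw [← h, norm_pow]; exact hsmall
          · exact 𝓛.hp1.trans h
        exact absurd (hT.big a h2) (not_lt.2 h1)
      have hnone' : ∀ x, Z.cls x ≠ none := by
        intro i
        by_cases hi : i = a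
        · rw [hi]; exact hcls
        · exact hnone i (hg i hi)
      obtain ⟨j', hj', l', hl', hjl', hc'⟩ := coll Z.cls (Finset.univ.erase l)
        (by rw [Finset.card_erase_of_mem (Finset.mem_univ l)]; simp; omega)
        (fun x _ => hnone' x)
      have h1 := Finset.ne_of_mem_erase hj'
      have h2 := Finset.ne_of_mem_erase hl'
      have hexc : ∀ m, m ≠ a → (∃ c, Z.cls m = some c ∧ Z.cls a = some c) → s₁ ≤ 2 := by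
        intro m hma ⟨c, hcm', hca⟩
        by_contra hs₁
        obtain ⟨t, rfl⟩ : ∃ t, s₁ = t + 1 := ⟨s₁ - 1, by omega⟩
        obtain ⟨w, w', a', b', c', d', hdet, hrel, hw, hw'⟩ := class_rel Z hZ hcm' hca
        obtain ⟨y'', hy'', hxy''⟩ := hroot m hma
        have := exc_case3 𝓛 hx hT hz hC heX hn hs hsmall hja hla hma hjl hy hy' hxy hxy' hxy''
          (hY j (hg j hja)) (hY l (hg l hla)) (hY m (hg m hma)) hP₁.hA hP₁.hB hP₁.hAW hP₁.hBW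
          hP₁.hε hG hdet hrel hw hw'
        omega
      by_cases hj'a : j' = a
      · subst hj'a
        obtain ⟨c, hc1, hc2⟩ := hc'
        exact hexc l' hjl'.symm ⟨c, hc2, hc1⟩
      · by_cases hl'a : l' = a
        · subst hl'a
          obtain ⟨c, hc1, hc2⟩ := hc'
          exact hexc j' hjl' ⟨c, hc1, hc2⟩
        · obtain ⟨A', B', g₂, s₂, ζ₂, ε₂, hP₂⟩ := hinfo j' l' (hg j' hj'a) (hg l' hl'a) hc'
          have := (no_wild3 𝓛 hx (hY j (hg j hja)) (hY l (hg l hla)) (hY j' (hg j' hj'a))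
            (hY l' (hg l' hl'a)) (hg j hja) (hg l hla) (hg j' hj'a) (hg l' hl'a) hjl hjl' (by
              rintro (⟨-, h⟩ | ⟨h, -⟩)
              · exact h2 h
              · exact h1 h) hP₁ hP₂).1
          omega

end main

end Pool.Agent.Y92.ZF
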