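import Pool.Agent.Y92.ZF.Stm

/-!
# The relation between roots of the Tate parameters
-/

set_option autoImplicit false
set_option linter.unusedSectionVars false

open UpperHalfPlane H294ZP Polynomial

namespace Pool.Agent.Y92.ZF

open Pool.Agent.Y226

theorem rel : S_REL := by
  intro C _ _ _ _ _ ψ hψ K₀ _ i₀ ρ φ hρ hφ τ w a b c d hdet hw X Y hX hY hXn k l hk hl s t hs ht
  obtain ⟨A, B, g, ζ, hA, hB, hAB, hg, hζ, hq, hYn, hΨ⟩ :=
    tate_rel hψ hρ hφ hdet hw hX hY hXn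
  have hs0 : s ≠ 0 := by
    rintro rfl
    rw [zero_pow hk.ne'] at hs
    exact qT_ne hψ hXn hs.symm
  have ht0 : t ≠ 0 := by
    rintro rfl
    rw [zero_pow hl.ne'] at ht
    exact qT_ne hψ hYn ht.symm
  set G := Nat.gcd (k * A) (l * B) with hG
  have hG0 : 0 < G := Nat.gcd_pos_of_pos_left _ (Nat.mul_pos hk hA)
  obtain ⟨A', hA'⟩ : G ∣ k * A := Nat.gcd_dvd_left _ _
  obtain ⟨B', hB'⟩ : G ∣ l * B := Nat.gcd_dvd_right _ _
  have hA'0 : 0 < A' := Nat.pos_of_ne_zero (by rintro rfl; have := Nat.mul_pos hk hA; omega)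
  have hB'0 : 0 < B' := Nat.pos_of_ne_zero (by rintro rfl; have := Nat.mul_pos hl hB; omega)
  have hcop : A'.Coprime B' := by
    have h1 : G * Nat.gcd A' B' = G * 1 := by
      rw [← Nat.gcd_mul_left, ← hA', ← hB', mul_one]
    exact Nat.eq_of_mul_eq_mul_left hG0 h1
  have hGkl : G ≤ k * l := by
    have h1 : G ∣ (k * l) * A := (Nat.gcd_dvd_left (k * A) (l * B)).trans ⟨l, by ring⟩
    have h2 : G ∣ (k * l) * B := (Nat.gcd_dvd_right (k * A) (l * B)).trans ⟨k, by ring⟩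
    have h3 := Nat.dvd_gcd h1 h2
    rw [Nat.gcd_mul_left, hAB, mul_one] at h3
    exact Nat.le_of_dvd (Nat.mul_pos hk hl) h3
  set z := t ^ B' * (s ^ A')⁻¹ with hz
  have hsA : s ^ A' ≠ 0 := pow_ne_zero _ hs0
  have hzG : z ^ G = ζ := by
    rw [hz, mul_pow, inv_pow, ← pow_mul, ← pow_mul, mul_comm B' G, mul_comm A' G, ← hB', ← hA',
      pow_mul, pow_mul, hs, ht, hq, mul_assoc,
      mul_inv_cancel₀ (pow_ne_zero _ (qT_ne hψ hXn)), mul_one]
  have hz1 : z ^ (G * g) = 1 := by rw [pow_mul, hzG, hζ.pow_eq_one]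
  have hord : 0 < orderOf z := orderOf_pos_iff.2 (isOfFinOrder_iff_pow_eq_one.2
    ⟨G * g, Nat.mul_pos hG0 hg, hz1⟩)
  refine ⟨A', B', orderOf z, z, hA'0, hB'0, hcop, hord, IsPrimitiveRoot.orderOf z, ?_, hYn,
    A * B * g ^ 2, ?_, ?_, hΨ⟩
  · rw [hz, mul_assoc, inv_mul_cancel₀ hsA, mul_one]
  · positivity
  · have h1 : g ≤ orderOf z := by
      refine Nat.le_of_dvd hord (hζ.dvd_of_pow_eq_one _ ?_)
      rw [← hzG, ← pow_mul, mul_comm G, pow_mul, pow_orderOf_eq_one, one_pow]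
    have h2 : A ≤ k * l * A' := by
      calc A ≤ k * A := Nat.le_mul_of_pos_left _ hk
        _ = G * A' := hA'
        _ ≤ k * l * A' := Nat.mul_le_mul_right _ hGkl
    have h3 : B ≤ k * l * B' := by
      calc B ≤ l * B := Nat.le_mul_of_pos_left _ hl
        _ = G * B' := hB'
        _ ≤ k * l * B' := Nat.mul_le_mul_right _ hGkl
    calc A * B * g ^ 2 ≤ (k * l * A') * (k * l * B') * (orderOf z) ^ 2 := by gcongr
      _ = (k * l) ^ 2 * (A' * B') * (orderOf z) ^ 2 := by ring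

end Pool.Agent.Y92.ZF
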