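import Pool.Agent.Y226.ZG.Glob3
import Pool.Agent.Y92.ZF.Loc
import Pool.Agent.Y92.ZF.Rel
import Pool.Agent.Y92.ZF.Exp

/-!
# Global preparations
-/

set_option autoImplicit false
set_option linter.unusedSectionVars false

open UpperHalfPlane H294ZP Polynomial

namespace Pool.Agent.Y92.ZF

open Pool.Agent.Y226 Pool.Agent.Y226.ZG

/-! ### the modular polynomial as a polynomial in two variables -/

/-- the modular polynomial -/
noncomputable def hPsi (N : ℕ) : QA[X][X] :=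
  ∑ l ∈ Finset.range (mD N + 1), C ((mP N l).map iA) * X ^ l

theorem E2_hPsi {B : Type*} [CommRing B] (φ : QA →+* B) (x y : B) (N : ℕ) :
    E2 φ x y (hPsi N) = PsiE (φ.comp iA) (mP N) (mD N) x y := by
  unfold hPsi PsiE
  rw [map_sum]
  refine Finset.sum_congr rfl fun l _ => ?_
  rw [map_mul, map_pow, E2_C, E2_X, eval₂_map]

/-! ### functions of an affine function of a coordinate -/

/-- a polynomial composed with an affine function -/
noncomputable def pc (lam mu : ℚ) (P : QA[X]) : QA[X] :=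
  P.comp (C (lam : QA) * X + C (mu : QA))

theorem pc_natDegree {lam mu : ℚ} (h : lam ≠ 0) (P : QA[X]) :
    (pc lam mu P).natDegree = P.natDegree := by
  have h' : (lam : QA) ≠ 0 := by exact_mod_cast h
  rw [pc, natDegree_comp, natDegree_linear h', mul_one]

theorem pc_ne {lam mu : ℚ} (h : lam ≠ 0) {P : QA[X]} (hP : P ≠ 0) : pc lam mu P ≠ 0 := by
  have h' : (lam : QA) ≠ 0 := by exact_mod_cast h
  rw [← leadingCoeff_ne_zero, pc, leadingCoeff_comp (by rw [natDegree_linear h']; exact one_ne_zero)]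
  refine mul_ne_zero (leadingCoeff_ne_zero.2 hP) (pow_ne_zero _ ?_)
  rw [leadingCoeff_linear h']
  exact h'

theorem pc_eval₂ {L : Type*} [Field L] [CharZero L] (φ : QA →+* L) (lam mu : ℚ) (P : QA[X])
    (x : L) : (pc lam mu P).eval₂ φ x = P.eval₂ φ (lam * x + mu) := by
  rw [pc, eval₂_comp, eval₂_add, eval₂_mul, eval₂_C, eval₂_C, eval₂_X, map_ratCast, map_ratCast]

/-- as a polynomial in the coordinates -/
noncomputable def mc {n : ℕ} (lam mu : Fin n → ℚ) (i : Fin n) (P : QA[X]) :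
    MvPolynomial (Fin n) QA := (pc (lam i) (mu i) P).eval₂ MvPolynomial.C (MvPolynomial.X i)

theorem mc_map {n : ℕ} {L : Type*} [CommRing L] (θ : MvPolynomial (Fin n) QA →+* L) (ι : QA →+* L)
    (hι : ∀ c, θ (MvPolynomial.C c) = ι c) (lam mu : Fin n → ℚ) (i : Fin n) (P : QA[X]) :
    θ (mc lam mu i P) = (pc (lam i) (mu i) P).eval₂ ι (θ (MvPolynomial.X i)) := by
  unfold mc
  rw [hom_eval₂]
  congr 1
  exact RingHom.ext hι

theorem mc_eval₂ {n : ℕ} (lam mu : Fin n → ℚ) (i : Fin n) (P : QA[X]) (y : Fin n → ℂ) :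
    MvPolynomial.eval₂ rA y (mc lam mu i P) = P.eval₂ rA (lam i * y i + mu i) := by
  have h1 := mc_map (MvPolynomial.eval₂Hom rA y) rA (fun c => by simp) lam mu i P
  rw [MvPolynomial.eval₂Hom_X', pc_eval₂] at h1
  exact h1

theorem mc_aeval {n : ℕ} {𝔽 : Type*} [Field 𝔽] [Algebra QA 𝔽] (lam mu : Fin n → ℚ) (i : Fin n)
    (P : QA[X]) (x : Fin n → 𝔽) :
    MvPolynomial.aeval x (mc lam mu i P) = aeval (x i) (pc (lam i) (mu i) P) := by
  have h1 := mc_map ((MvPolynomial.aeval x : MvPolynomial (Fin n) QA →ₐ[QA] 𝔽).toRingHom)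
    (algebraMap QA 𝔽) (fun c => by
      show MvPolynomial.aeval x (MvPolynomial.C c) = _
      rw [MvPolynomial.aeval_C]) lam mu i P
  refine h1.trans ?_
  rw [aeval_def]
  congr 1
  exact MvPolynomial.aeval_X _ _

/-- the modular equation for two of the functions as a polynomial in the coordinates -/
noncomputable def PsiF {n : ℕ} (lam mu : Fin n → ℚ) (Nu De : Fin n → QA[X]) (j k : Fin n) (N : ℕ) :
    MvPolynomial (Fin n) QA :=
  clr (hPsi N) (exists_BD (hPsi N)).choose (mc lam mu j (Nu j)) (mc lam mu j (De j))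
    (mc lam mu k (Nu k)) (mc lam mu k (De k))

/-- the value of the quotient -/
noncomputable def qv (A B : QA[X]) (s : ℂ) : ℂ := A.eval₂ rA s / B.eval₂ rA s

theorem PsiF_eval₂ {n : ℕ} (lam mu : Fin n → ℚ) (Nu De : Fin n → QA[X]) (j k : Fin n) (N : ℕ)
    (y : Fin n → ℂ) (hj : (De j).eval₂ rA (lam j * y j + mu j) ≠ 0)
    (hk : (De k).eval₂ rA (lam k * y k + mu k) ≠ 0)
    (h0 : PsiE ιZ (mP N) (mD N) (qv (Nu j) (De j) (lam j * y j + mu j))
      (qv (Nu k) (De k) (lam k * y k + mu k)) = 0) :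
    MvPolynomial.eval₂ rA y (PsiF lam mu Nu De j k N) = 0 := by
  have h1 := clr_map (MvPolynomial.eval₂Hom rA y) rA (fun c => by simp)
    (exists_BD (hPsi N)).choose_spec (u := mc lam mu j (Nu j)) (u' := mc lam mu j (De j))
    (w := mc lam mu k (Nu k)) (w' := mc lam mu k (De k))
    (a := qv (Nu j) (De j) (lam j * y j + mu j)) (b := qv (Nu k) (De k) (lam k * y k + mu k))
    (by
      show MvPolynomial.eval₂ rA y _ = _ * MvPolynomial.eval₂ rA y _
      rw [mc_eval₂, mc_eval₂, qv, div_mul_cancel₀ _ hj])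
    (by
      show MvPolynomial.eval₂ rA y _ = _ * MvPolynomial.eval₂ rA y _
      rw [mc_eval₂, mc_eval₂, qv, div_mul_cancel₀ _ hk])
  refine h1.trans ?_
  rw [E2_hPsi, rA_comp, h0, mul_zero]

/-! ### poles -/

theorem map_quot {K Ω : Type*} [Field K] [Field Ω] (O : PowerSeries K →+* Ω) {f g : PowerSeries K}
    (hg : PowerSeries.constantCoeff g ≠ 0) : O f / O g = O (f * g⁻¹) := by
  have h1 : O g * O g⁻¹ = 1 := by rw [← map_mul, PowerSeries.mul_inv_cancel g hg, map_one]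
  have h2 : O g ≠ 0 := left_ne_zero_of_mul_eq_one h1
  rw [div_eq_iff h2, map_mul, mul_assoc, mul_comm (O g⁻¹), h1, mul_one]

theorem cc_eval₂ {K : Type*} [Field K] (A : K[X]) (y : PowerSeries K) :
    PowerSeries.constantCoeff (A.eval₂ (PowerSeries.C (R := K)) y) =
      A.eval (PowerSeries.constantCoeff y) := by
  rw [hom_eval₂]
  have : (PowerSeries.constantCoeff (R := K)).comp (PowerSeries.C (R := K)) = RingHom.id K := by
    ext c; simp
  rw [this, eval₂_id]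

/-- the modular equation does not hold identically -/
theorem psi_pole' {K 𝔽 : Type} [Field K] [Field 𝔽] [Algebra K 𝔽] {n : ℕ} (𝒞 : GP K 𝔽 n)
    (i₀ : ZZ →+* K) {j k : Fin n} (hjk : j ≠ k) {N : ℕ} (hN : 0 < N) {A B A' B' : K[X]}
    (hB : ∀ y ∈ 𝒞.ys k true j, B.eval (PowerSeries.coeff 0 (y : PowerSeries K)) ≠ 0)
    (hdeg : B'.natDegree < A'.natDegree) (hB' : B' ≠ 0) :
    PsiE ((algebraMap K 𝔽).comp i₀) (mP N) (mD N)
      (aeval (𝒞.x j) A / aeval (𝒞.x j) B) (aeval (𝒞.x k) A' / aeval (𝒞.x k) B') ≠ 0 := by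
  intro h0
  obtain ⟨-, -, -, -, -, -, -, -, hone, -, -⟩ := modular_spec N hN
  obtain ⟨Ω, _, σ, τ, h1, h2, h3⟩ := 𝒞.exists_place k true
  obtain ⟨y, hy, hxy⟩ := h3 j hjk
  set oP := HahnSeries.ofPowerSeries ℤ K with hoP
  set O : PowerSeries K →+* Ω := τ.comp oP with hO
  have hOinj : Function.Injective O := τ.injective.comp HahnSeries.ofPowerSeries_injective
  have hx0 := 𝒞.x_ne k
  have e1 : σ (𝒞.x k)⁻¹ = O (PowerSeries.X ^ 𝒞.N) := by
    show _ = τ (oP _)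
    rw [hoP, HahnSeries.ofPowerSeries_X_pow]
    exact h2
  have e2 : σ.comp (algebraMap K 𝔽) = O.comp (PowerSeries.C (R := K)) := by
    refine RingHom.ext fun c => ?_
    show σ (algebraMap K 𝔽 c) = τ (oP (PowerSeries.C c))
    rw [h1, hoP, HahnSeries.ofPowerSeries_C]
  have hA'0 : A' ≠ 0 := by
    rintro rfl
    rw [natDegree_zero] at hdeg
    omega
  have hnz : ∀ P : K[X], P ≠ 0 → aeval (𝒞.x k) P ≠ 0 := fun P hP h =>
    hP (transcendental_iff.1 (𝒞.tr k) P h)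
  -- the first function
  have ea : σ (aeval (𝒞.x j) A / aeval (𝒞.x j) B) =
      O (A.eval₂ (PowerSeries.C (R := K)) y * (B.eval₂ (PowerSeries.C (R := K)) y)⁻¹) := by
    have h4 : ∀ P : K[X], σ (aeval (𝒞.x j) P) = O (P.eval₂ (PowerSeries.C (R := K)) y) := by
      intro P
      rw [aeval_def, hom_eval₂, hom_eval₂, e2, hxy]
      rfl
    rw [map_div₀, h4, h4]
    refine map_quot O ?_
    rw [cc_eval₂, ← PowerSeries.coeff_zero_eq_constantCoeff_apply]
    exact hB y hy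
  -- the second function
  have hrev : ∀ P : K[X], aeval (𝒞.x k) P =
      aeval (𝒞.x k)⁻¹ P.reverse * 𝒞.x k ^ P.natDegree := by
    intro P
    haveI : Invertible (𝒞.x k) := invertibleOfNonzero hx0
    have h4 := eval₂_reverse_mul_pow (algebraMap K 𝔽) (𝒞.x k) P
    rw [invOf_eq_inv] at h4
    rw [aeval_def, aeval_def]
    exact h4.symm
  set T : PowerSeries K := PowerSeries.X ^ 𝒞.N with hT
  have hTc : PowerSeries.constantCoeff T = 0 := by
    rw [hT, map_pow, PowerSeries.constantCoeff_X, zero_pow 𝒞.hN.ne']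
  have eb : σ (aeval (𝒞.x k) A' / aeval (𝒞.x k) B')⁻¹ =
      O (B'.reverse.eval₂ (PowerSeries.C (R := K)) T *
        (A'.reverse.eval₂ (PowerSeries.C (R := K)) T)⁻¹ * T ^ (A'.natDegree - B'.natDegree)) := by
    have h4 : ∀ P : K[X], σ (aeval (𝒞.x k)⁻¹ P) = O (P.eval₂ (PowerSeries.C (R := K)) T) := by
      intro P
      rw [aeval_def, hom_eval₂, hom_eval₂, e2, e1]
    have h5 : (aeval (𝒞.x k) A' / aeval (𝒞.x k) B')⁻¹ =
        aeval (𝒞.x k)⁻¹ B'.reverse / aeval (𝒞.x k)⁻¹ A'.reverse *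
          (𝒞.x k)⁻¹ ^ (A'.natDegree - B'.natDegree) := by
      have h6 := hnz A' hA'0
      rw [hrev A'] at h6
      have h7 := left_ne_zero_of_mul h6
      rw [inv_div, hrev A', hrev B', inv_pow]
      have h8 : 𝒞.x k ^ A'.natDegree =
          𝒞.x k ^ B'.natDegree * 𝒞.x k ^ (A'.natDegree - B'.natDegree) := by
        rw [← pow_add, Nat.add_sub_cancel' hdeg.le]
      rw [h8]
      have h9 : 𝒞.x k ^ B'.natDegree ≠ 0 := pow_ne_zero _ hx0
      have h10 : 𝒞.x k ^ (A'.natDegree - B'.natDegree) ≠ 0 := pow_ne_zero _ hx0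
      field_simp
    have h6 : PowerSeries.constantCoeff (A'.reverse.eval₂ (PowerSeries.C (R := K)) T) ≠ 0 := by
      rw [cc_eval₂, hTc, ← coeff_zero_eq_eval_zero, coeff_zero_reverse]
      exact leadingCoeff_ne_zero.2 hA'0
    rw [h5, map_mul, map_div₀, h4, h4, map_pow, e1, ← map_pow O, map_quot O h6, ← map_mul O]
  set a := aeval (𝒞.x j) A / aeval (𝒞.x j) B with ha
  set b := aeval (𝒞.x k) A' / aeval (𝒞.x k) B' with hb
  set Sa := A.eval₂ (PowerSeries.C (R := K)) y * (B.eval₂ (PowerSeries.C (R := K)) y)⁻¹ with hSa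
  set Sb := B'.reverse.eval₂ (PowerSeries.C (R := K)) T *
        (A'.reverse.eval₂ (PowerSeries.C (R := K)) T)⁻¹ * T ^ (A'.natDegree - B'.natDegree) with hSb
  have hb0 : b ≠ 0 := div_ne_zero (hnz _ hA'0) (hnz _ hB')
  have h4 := PsiE_mul ((algebraMap K 𝔽).comp i₀) (mP N) (mD N) a b b⁻¹
  rw [h0, zero_mul, mul_inv_cancel₀ hb0] at h4
  have h5 := congrArg σ h4
  rw [map_zero, map_PsiH, map_one, ea, eb] at h5
  have h6 : PsiH ((PowerSeries.C (R := K)).comp i₀) (mP N) (mD N) Sa 1 Sb = 0 := by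
    apply hOinj
    rw [map_zero, map_PsiH, map_one, h5, ← RingHom.comp_assoc, ← RingHom.comp_assoc, e2]
  have e6 := congrArg (PowerSeries.constantCoeff (R := K)) h6
  have hSb0 : PowerSeries.constantCoeff Sb = 0 := by
    rw [hSb, map_mul, map_pow, hTc, zero_pow (by omega), mul_zero]
  rw [map_PsiH, map_zero, map_one, hSb0, PsiH_zero _ hone, one_pow] at e6
  exact one_ne_zero e6

/-- the modular equation for two of the functions is not in the ideal -/
theorem PsiF_notMem {𝔽 : Type} [Field 𝔽] [Algebra QA 𝔽] {n : ℕ} (𝒞 : GP QA 𝔽 n)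
    {I : Ideal (MvPolynomial (Fin n) QA)}
    (hI : ∀ f : MvPolynomial (Fin n) QA, MvPolynomial.aeval 𝒞.x f = 0 ↔ f ∈ I)
    {lam mu : Fin n → ℚ} (hlam : ∀ i, lam i ≠ 0) {Nu De : Fin n → QA[X]}
    (hDe : ∀ i, De i ≠ 0) (hdeg : ∀ i, (De i).natDegree < (Nu i).natDegree) {j k : Fin n}
    (hjk : j ≠ k) {N : ℕ} (hN : 0 < N)
    (hB : ∀ y ∈ 𝒞.ys k true j,
      (pc (lam j) (mu j) (De j)).eval (PowerSeries.coeff 0 (y : PowerSeries QA)) ≠ 0) :
    PsiF lam mu Nu De j k N ∉ I := by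
  intro hmem
  rw [← hI] at hmem
  have hnz : ∀ i, aeval (𝒞.x i) (pc (lam i) (mu i) (De i)) ≠ 0 := fun i h =>
    pc_ne (hlam i) (hDe i) (transcendental_iff.1 (𝒞.tr i) _ h)
  have h1 := clr_map ((MvPolynomial.aeval 𝒞.x : MvPolynomial (Fin n) QA →ₐ[QA] 𝔽).toRingHom)
    (algebraMap QA 𝔽) (fun c => by
      show MvPolynomial.aeval 𝒞.x (MvPolynomial.C c) = _
      rw [MvPolynomial.aeval_C])
    (exists_BD (hPsi N)).choose_spec (u := mc lam mu j (Nu j)) (u' := mc lam mu j (De j))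
    (w := mc lam mu k (Nu k)) (w' := mc lam mu k (De k))
    (a := aeval (𝒞.x j) (pc (lam j) (mu j) (Nu j)) / aeval (𝒞.x j) (pc (lam j) (mu j) (De j)))
    (b := aeval (𝒞.x k) (pc (lam k) (mu k) (Nu k)) / aeval (𝒞.x k) (pc (lam k) (mu k) (De k)))
    (by
      show MvPolynomial.aeval 𝒞.x _ = _ * MvPolynomial.aeval 𝒞.x _
      rw [mc_aeval, mc_aeval, div_mul_cancel₀ _ (hnz j)])
    (by
      show MvPolynomial.aeval 𝒞.x _ = _ * MvPolynomial.aeval 𝒞.x _
      rw [mc_aeval, mc_aeval, div_mul_cancel₀ _ (hnz k)])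
  have h2 : ((MvPolynomial.aeval 𝒞.x : MvPolynomial (Fin n) QA →ₐ[QA] 𝔽).toRingHom)
      (PsiF lam mu Nu De j k N) = 0 := hmem
  unfold PsiF at h2
  rw [h1, E2_hPsi] at h2
  rcases mul_eq_zero.1 h2 with h3 | h3
  · have h4 : ∀ i, ((MvPolynomial.aeval 𝒞.x : MvPolynomial (Fin n) QA →ₐ[QA] 𝔽).toRingHom)
        (mc lam mu i (De i)) ≠ 0 := by
      intro i
      have : ((MvPolynomial.aeval 𝒞.x : MvPolynomial (Fin n) QA →ₐ[QA] 𝔽).toRingHom)
        (mc lam mu i (De i)) = MvPolynomial.aeval 𝒞.x (mc lam mu i (De i)) := rfl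
      rw [this, mc_aeval]
      exact hnz i
    exact mul_ne_zero (pow_ne_zero _ (h4 j)) (pow_ne_zero _ (h4 k)) h3
  · refine psi_pole' 𝒞 iA hjk hN hB ?_ (pc_ne (hlam k) (hDe k)) h3
    rw [pc_natDegree (hlam k), pc_natDegree (hlam k)]
    exact hdeg k

/-- the equation of a fibre is not in the ideal -/
theorem fib_notMem {𝔽 : Type} [Field 𝔽] [Algebra QA 𝔽] {n : ℕ} (𝒞 : GP QA 𝔽 n)
    {I : Ideal (MvPolynomial (Fin n) QA)}
    (hI : ∀ f : MvPolynomial (Fin n) QA, MvPolynomial.aeval 𝒞.x f = 0 ↔ f ∈ I)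
    {lam mu : Fin n → ℚ} (hlam : ∀ i, lam i ≠ 0) {P : QA[X]} (hP : P ≠ 0) (i : Fin n) :
    mc lam mu i P ∉ I := by
  intro hmem
  rw [← hI, mc_aeval] at hmem
  exact pc_ne (hlam i) hP (transcendental_iff.1 (𝒞.tr i) _ hmem)

theorem sub_ne {A B : QA[X]} (hdeg : B.natDegree < A.natDegree) (c : QA) : A - C c * B ≠ 0 := by
  intro h
  have h1 : A = C c * B := sub_eq_zero.1 h
  have h2 : A.natDegree ≤ B.natDegree := by
    rw [h1]
    exact natDegree_C_mul_le c B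
  omega

/-! ### large primes -/

theorem unit_large (α : QA) (hα : α ≠ 0) : ∃ D : ℕ, ∀ (p : ℕ) [Fact p.Prime], D < p →
    ∀ (C : Type) [NormedField C] [IsUltrametricDist C] [IsAlgClosed C] (φ : QA →+* C),
    ‖(p : C)‖ < 1 → φ α ∈ Nr C p ∧ ‖φ α‖ = 1 := by
  obtain ⟨D₁, h₁⟩ := nr_large α
  obtain ⟨D₂, h₂⟩ := nr_large α⁻¹
  refine ⟨D₁ + D₂, fun p _ hp C _ _ _ φ hp1 => ?_⟩
  have h1 := h₁ p (by omega) C φ hp1
  have h2 := Nr_le (h₂ p (by omega) C φ hp1)
  refine ⟨h1, le_antisymm (Nr_le h1) ?_⟩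
  rw [map_inv₀, norm_inv] at h2
  have h3 : 0 < ‖φ α‖ := norm_pos_iff.2 ((map_ne_zero φ).2 hα)
  exact (inv_le_one₀ h3).1 h2

theorem unit_large_set (S : Finset QA) : ∃ D : ℕ, ∀ (p : ℕ) [Fact p.Prime], D < p →
    ∀ (C : Type) [NormedField C] [IsUltrametricDist C] [IsAlgClosed C] (φ : QA →+* C),
    ‖(p : C)‖ < 1 → ∀ α ∈ S, α ≠ 0 → φ α ∈ Nr C p ∧ ‖φ α‖ = 1 := by
  classical
  have h : ∀ α : QA, ∃ D : ℕ, ∀ (p : ℕ) [Fact p.Prime], D < p →
      ∀ (C : Type) [NormedField C] [IsUltrametricDist C] [IsAlgClosed C] (φ : QA →+* C),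
      ‖(p : C)‖ < 1 → α ≠ 0 → φ α ∈ Nr C p ∧ ‖φ α‖ = 1 := by
    intro α
    by_cases hα : α = 0
    · exact ⟨0, fun _ _ _ _ _ _ _ _ _ h => absurd hα h⟩
    · obtain ⟨D, hD⟩ := unit_large α hα
      exact ⟨D, fun p _ hp C _ _ _ φ hp1 _ => hD p hp C φ hp1⟩
  choose D hD using h
  refine ⟨∑ α ∈ S, D α, fun p _ hp C _ _ _ φ hp1 α hα h0 => hD α p ?_ C φ hp1 h0⟩
  have h1 : D α ≤ ∑ α ∈ S, D α := Finset.single_le_sum (f := D) (fun _ _ => Nat.zero_le _) hα
  omega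

end Pool.Agent.Y92.ZF
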