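import Pool.Agent.Y92.ZF.Pkg

/-!
# The main theorem over the algebraic numbers
-/

set_option autoImplicit false
set_option linter.unusedSectionVars false

open UpperHalfPlane H294ZP Polynomial

namespace Pool.Agent.Y92.ZF

open Pool.Agent.Y226 Pool.Agent.Y226.ZG

/-- the points of the curve where the functions are defined -/
def VD {n : ℕ} (I : Ideal (MvPolynomial (Fin n) QA)) (De : Fin n → QA[X]) (lam mu : Fin n → ℚ) :
    Set (Fin n → ℂ) := {y | y ∈ VC I ∧ ∀ i, (De i).eval₂ rA (lam i * y i + mu i) ≠ 0}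

/-- the main theorem over the algebraic numbers -/
theorem main_ZF {n : ℕ} (I : Ideal (MvPolynomial (Fin n) QA)) (hIp : I.IsPrime)
    (hconst : ∀ (i : Fin n) (c : QA), MvPolynomial.X i - MvPolynomial.C c ∉ I)
    (hgen : ∀ i j, i ≠ j → ∃ (a b : ℕ) (g : QA[X][X]), Cor4 a b g ∧
      E2 MvPolynomial.C (MvPolynomial.X i) (MvPolynomial.X j) g ∈ I)
    (Nu De : Fin n → QA[X]) (hDe : ∀ i, De i ≠ 0)
    (hdeg : ∀ i, (De i).natDegree < (Nu i).natDegree) (W : ℕ) :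
    ∃ D : ℕ, ∀ lam mu : Fin n → ℚ, (∃ (p e : ℕ) (w : Fin n → ℕ), p.Prime ∧ D < p ∧ 0 < e ∧
      ∀ i, 0 < w i ∧ w i ≤ W ∧ padicValRat p (lam i) = -((w i : ℤ) * e) ∧
        padicValRat p (lam i) < padicValRat p (mu i)) →
      {y : Fin n → ℂ | y ∈ VD I De lam mu ∧ ∃ (r : ℕ) (Z : SpecialDatum n r), r + 2 ≤ n ∧
        (fun i => qv (Nu i) (De i) (lam i * y i + mu i)) ∈ Z.locus}.Finite ∧
      ∀ (r : ℕ) (Z : SpecialDatum n r), r < n →
        {y : Fin n → ℂ | y ∈ VD I De lam mu ∧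
          (fun i => qv (Nu i) (De i) (lam i * y i + mu i)) ∈ Z.locus}.Finite ∧
        ∃ y ∈ VD I De lam mu, (fun i => qv (Nu i) (De i) (lam i * y i + mu i)) ∉ Z.locus := by
  classical
  haveI := hIp
  obtain ⟨𝔽, _, _, x, hx1, hx2⟩ := ff_of_prime I
  obtain ⟨𝒞, h𝒞⟩ := exists_GP x hx1 (fun i => by
      intro halg
      obtain ⟨r, hr, hr0⟩ := halg
      obtain ⟨c, hc⟩ := root_const (algebraMap QA 𝔽) hr hr0
      apply hconst i c
      rw [← hx2, map_sub, MvPolynomial.aeval_X, MvPolynomial.aeval_C, hc, sub_self])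
    (fun i j hij => by
      obtain ⟨a, b, g, hg, hgI⟩ := hgen i j hij
      refine ⟨a, b, g, hg, ?_⟩
      rw [← hx2, aeval_E2, MvPolynomial.aeval_X, MvPolynomial.aeval_X] at hgI
      exact hgI)
  subst h𝒞
  obtain ⟨D₀, hD₀⟩ := exists_pkg 𝒞 hx2 Nu De hDe hdeg W
  -- zeros of functions
  have hcoord : ∀ f, f ∉ I → ∀ i, ∃ q : QA[X], q ≠ 0 ∧ ∀ y ∈ VC I,
      MvPolynomial.eval₂ rA y f = 0 → Pool.Agent.Y226.ev q (y i) = 0 := by
    intro f hf i
    obtain ⟨q, hq, hq'⟩ := coord_poly 𝒞 (fun h => hf ((hx2 f).1 h)) i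
    refine ⟨q, hq, fun y hy hfy => ?_⟩
    have := hq' ℂ rA y (fun g hg => hy g ((hx2 g).1 hg)) hfy
    unfold Pool.Agent.Y226.ev
    rwa [eval_map]
  have hzfin : ∀ f, f ∉ I → {y | y ∈ VC I ∧ MvPolynomial.eval₂ rA y f = 0}.Finite := by
    intro f hf
    choose q hq hq' using hcoord f hf
    refine Set.Finite.subset (Set.Finite.pi' fun i => ((q i).map rA).rootSet_finite ℂ) ?_
    rintro y ⟨hy, hfy⟩ i
    rw [mem_rootSet]
    refine ⟨(Polynomial.map_ne_zero_iff rA.injective).2 (hq i), ?_⟩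
    rw [coe_aeval_eq_eval]
    exact hq' i y hy hfy
  have hzalg : ∀ f, f ∉ I → ∀ y ∈ VC I, MvPolynomial.eval₂ rA y f = 0 →
      ∃ s : Fin n → QA, (fun i => rA (s i)) = y ∧ ∀ g ∈ I, MvPolynomial.eval s g = 0 := by
    intro f hf y hy hfy
    have h1 : ∀ i, ∃ s : QA, rA s = y i := by
      intro i
      obtain ⟨q, hq, hq'⟩ := hcoord f hf i
      exact root_algebraic hq (hq' y hy hfy)
    choose s hs using h1
    have hsy : (fun i => rA (s i)) = y := funext hs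
    refine ⟨s, hsy, fun g hg => ?_⟩
    have h2 := hy g hg
    rw [← hsy, eval₂_rA] at h2
    exact (map_eq_zero rA).1 h2
  refine ⟨D₀, ?_⟩
  rintro lam mu ⟨p, e, w, hp, hDp, he, hw⟩
  haveI hpf : Fact p.Prime := ⟨hp⟩
  obtain ⟨hlam0, hpole, G, hG⟩ := hD₀ p hDp lam mu w e he
    (fun i => ⟨(hw i).1, (hw i).2.1⟩) (fun i => (hw i).2.2.1) (fun i => (hw i).2.2.2)
  have hΨI : ∀ j k, j ≠ k → ∀ N, 0 < N → PsiF lam mu Nu De j k N ∉ I := fun j k hjk N hN =>
    PsiF_notMem 𝒞 hx2 hlam0 hDe hdeg hjk hN (hpole j k hjk)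
  -- the polynomial of a special subvariety
  have hspec : ∀ (r : ℕ) (Z : SpecialDatum n r), r < n → ∃ f, f ∉ I ∧ ∀ y ∈ VD I De lam mu,
      (fun i => qv (Nu i) (De i) (lam i * y i + mu i)) ∈ Z.locus →
        MvPolynomial.eval₂ rA y f = 0 := by
    intro r Z hr
    by_cases hall : ∃ i, Z.cls i = none
    · obtain ⟨i, hi⟩ := hall
      have hint : IsIntegral ℤ (jj (Z.cm i)) := singular_modulus_integral (Z.cm i) (Z.isCM i)
      set c : QA := iA ⟨jj (Z.cm i), hint⟩ with hcdef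
      have hcx : rA c = jj (Z.cm i) := rfl
      refine ⟨mc lam mu i (Nu i - C c * De i),
        fib_notMem 𝒞 hx2 hlam0 (sub_ne (hdeg i) c) i, fun y hy hyZ => ?_⟩
      obtain ⟨z, hz⟩ := hyZ
      have h1 := (hz i).1 hi
      rw [mc_eval₂, eval₂_sub, eval₂_mul, eval₂_C, hcx, ← h1]
      simp only [qv]
      rw [div_mul_cancel₀ _ (hy.2 i), sub_self]
    · push Not at hall
      obtain ⟨j, -, k, -, hjk, c, hcj, hck⟩ := coll Z.cls Finset.univ (by simpa using hr)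
        (fun x _ => hall x)
      obtain ⟨a', b', c', d', hdet, hrel⟩ := class_rel_unif Z hcj hck
      obtain ⟨N, hN⟩ : ∃ N : ℕ, (N : ℤ) = a' * d' - b' * c' :=
        ⟨(a' * d' - b' * c').toNat, by omega⟩
      have hN0 : 0 < N := by
        have : (0 : ℤ) < N := by rw [hN]; exact hdet
        exact_mod_cast this
      refine ⟨_, hΨI j k hjk N hN0, fun y hy hyZ => ?_⟩
      obtain ⟨w, w', hww, hw, hw'⟩ := hrel _ hyZ
      obtain ⟨-, -, -, -, -, -, -, -, -, -, h5⟩ := modular_spec N hN0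
      have hΨ := h5 w w' a' b' c' d' hN.symm hww
      rw [← hw, ← hw'] at hΨ
      exact PsiF_eval₂ lam mu Nu De j k N y (hy.2 j) (hy.2 k) hΨ
  refine ⟨?_, fun r Z hr => ⟨?_, ?_⟩⟩
  · -- finiteness
    have hf : ∀ q : Fin n × Fin n × ℕ, ∃ f, f ∉ I ∧ (q.1 ≠ q.2.1 → 0 < q.2.2 →
        f = PsiF lam mu Nu De q.1 q.2.1 q.2.2) := by
      rintro ⟨j, k, N⟩
      by_cases h : j ≠ k ∧ 0 < N
      · exact ⟨_, hΨI j k h.1 N h.2, fun _ _ => rfl⟩
      · exact ⟨1, fun h1 => hIp.ne_top ((Ideal.eq_top_iff_one I).2 h1),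
          fun h1 h2 => absurd ⟨h1, h2⟩ h⟩
    choose f hf0 hf1 using hf
    have hfin : (⋃ q ∈ (Finset.univ ×ˢ Finset.univ ×ˢ Finset.range (G + 1) :
        Finset (Fin n × Fin n × ℕ)), {y | y ∈ VC I ∧ MvPolynomial.eval₂ rA y (f q) = 0}).Finite :=
      Set.Finite.biUnion (Finset.finite_toSet _) fun q _ => hzfin _ (hf0 q)
    refine hfin.subset ?_
    rintro y ⟨hy, r, Z, hr, hZ⟩
    -- the point is algebraic
    obtain ⟨g, hg, hg'⟩ := hspec r Z (by omega)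
    obtain ⟨s, hsy, hsI⟩ := hzalg g hg y hy.1 (hg' y hy hZ)
    have hsy' : ∀ i, rA (s i) = y i := fun i => congrFun hsy i
    obtain ⟨j, l, hjl, N, hN0, hN, hΨ⟩ := hG s hsI r Z hr (by
      simp only [hsy']
      exact hZ)
    rw [hsy', hsy'] at hΨ
    rw [Set.mem_iUnion₂]
    refine ⟨(j, l, N), ?_, hy.1, ?_⟩
    · simp only [Finset.mem_product, Finset.mem_univ, Finset.mem_range, true_and]
      omega
    · rw [hf1 (j, l, N) hjl hN0]
      exact PsiF_eval₂ lam mu Nu De j l N y (hy.2 j) (hy.2 l) hΨ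
  · obtain ⟨g, hg, hg'⟩ := hspec r Z hr
    refine (hzfin g hg).subset ?_
    rintro y ⟨hy, hZ⟩
    exact ⟨hy.1, hg' y hy hZ⟩
  · -- the curve is not contained in a proper special subvariety
    obtain ⟨g, hg, hg'⟩ := hspec r Z hr
    have hvan : ∀ f, (∀ y ∈ VC I, MvPolynomial.eval₂ rA y f = 0) → f ∈ I := by
      intro f hf
      have h1 : f ∈ MvPolynomial.vanishingIdeal QA (MvPolynomial.zeroLocus ℂ I) := fun y hy =>
        hf y hy
      rwa [MvPolynomial.IsPrime.vanishingIdeal_zeroLocus] at h1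
    have hprod : g * ∏ i, mc lam mu i (De i) ∉ I := by
      intro hmem
      rcases hIp.mem_or_mem hmem with h1 | h1
      · exact hg h1
      · obtain ⟨i, -, hi⟩ := (hIp.prod_mem_iff).1 h1
        exact fib_notMem 𝒞 hx2 hlam0 (hDe i) i hi
    have hex : ∃ y ∈ VC I, MvPolynomial.eval₂ rA y (g * ∏ i, mc lam mu i (De i)) ≠ 0 := by
      by_contra hcon
      push Not at hcon
      exact hprod (hvan _ hcon)
    obtain ⟨y, hy, hne⟩ := hex
    rw [MvPolynomial.eval₂_mul] at hne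
    have h1 : MvPolynomial.eval₂ rA y (∏ i, mc lam mu i (De i)) ≠ 0 := right_ne_zero_of_mul hne
    have h2 : MvPolynomial.eval₂ rA y (∏ i, mc lam mu i (De i)) =
        ∏ i, MvPolynomial.eval₂ rA y (mc lam mu i (De i)) :=
      map_prod (MvPolynomial.eval₂Hom rA y) _ _
    rw [h2] at h1
    have hyD : y ∈ VD I De lam mu := by
      refine ⟨hy, fun i => ?_⟩
      have h3 := Finset.prod_ne_zero_iff.1 h1 i (Finset.mem_univ i)
      rwa [mc_eval₂] at h3
    exact ⟨y, hyD, fun hZ => left_ne_zero_of_mul hne (hg' y hyD hZ)⟩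

end Pool.Agent.Y92.ZF
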