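import Pool.Agent.Y92.ZF.Glob

/-!
# The local package at a large prime
-/

set_option autoImplicit false
set_option linter.unusedSectionVars false

open UpperHalfPlane H294ZP Polynomial

namespace Pool.Agent.Y92.ZF

open Pool.Agent.Y226 Pool.Agent.Y226.ZG

theorem exists_gamma {A B : QA[X]} (hB : B ≠ 0) (hdeg : B.natDegree < A.natDegree) :
    ∃ γ : QA, γ ≠ 0 ∧ γ ^ (A.natDegree - B.natDegree) * B.leadingCoeff = A.leadingCoeff := by
  have hA : A ≠ 0 := by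
    rintro rfl
    rw [natDegree_zero] at hdeg
    omega
  have h1 := leadingCoeff_ne_zero.2 hB
  have h2 := leadingCoeff_ne_zero.2 hA
  obtain ⟨γ, hγ⟩ := IsAlgClosed.exists_pow_nat_eq (A.leadingCoeff / B.leadingCoeff)
    (n := A.natDegree - B.natDegree) (by omega)
  refine ⟨γ, ?_, by rw [hγ, div_mul_cancel₀ _ h1]⟩
  rintro rfl
  rw [zero_pow (by omega)] at hγ
  exact div_ne_zero h2 h1 hγ.symm

theorem exists_pkg {𝔽 : Type} [Field 𝔽] [Algebra QA 𝔽] {n : ℕ} (𝒞 : GP QA 𝔽 n)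
    {I : Ideal (MvPolynomial (Fin n) QA)}
    (hI : ∀ f : MvPolynomial (Fin n) QA, MvPolynomial.aeval 𝒞.x f = 0 ↔ f ∈ I)
    (Nu De : Fin n → QA[X]) (hDe : ∀ i, De i ≠ 0)
    (hdeg : ∀ i, (De i).natDegree < (Nu i).natDegree) (W : ℕ) :
    ∃ D₀ : ℕ, ∀ (p : ℕ) [Fact p.Prime], D₀ < p → ∀ (lam mu : Fin n → ℚ) (w : Fin n → ℕ) (e : ℕ),
      0 < e → (∀ i, 0 < w i ∧ w i ≤ W) → (∀ i, padicValRat p (lam i) = -((w i : ℤ) * e)) →
      (∀ i, padicValRat p (lam i) < padicValRat p (mu i)) →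
      (∀ i, lam i ≠ 0) ∧
      (∀ j k, j ≠ k → ∀ y ∈ 𝒞.ys k true j,
        (pc (lam j) (mu j) (De j)).eval (PowerSeries.coeff 0 (y : PowerSeries QA)) ≠ 0) ∧
      ∃ G : ℕ, ∀ s : Fin n → QA, (∀ f ∈ I, MvPolynomial.eval s f = 0) →
        ∀ (r : ℕ) (Z : SpecialDatum n r), r + 2 ≤ n →
        (fun i => qv (Nu i) (De i) (lam i * rA (s i) + mu i)) ∈ Z.locus →
        ∃ j l : Fin n, j ≠ l ∧ ∃ N' : ℕ, 0 < N' ∧ N' ≤ G ∧
          PsiE ιZ (mP N') (mD N') (qv (Nu j) (De j) (lam j * rA (s j) + mu j))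
            (qv (Nu l) (De l) (lam l * rA (s l) + mu l)) = 0 := by
  classical
  obtain ⟨D₁, hD₁⟩ := exists_loc 𝒞 hI W
  choose γ hγ0 hγ using fun i => exists_gamma (hDe i) (hdeg i)
  have hNu : ∀ i, Nu i ≠ 0 := by
    intro i h0
    have := hdeg i
    rw [h0, natDegree_zero] at this
    omega
  set kk : Fin n → ℕ := fun i => (Nu i).natDegree - (De i).natDegree with hkk
  have hkk0 : ∀ i, 0 < kk i := fun i => by
    have := hdeg i
    show 0 < (Nu i).natDegree - (De i).natDegree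
    omega
  obtain ⟨D₂, hD₂⟩ := unit_large_set (Finset.univ.image γ ∪
    Finset.univ.image (fun i => (De i).leadingCoeff) ∪
    Finset.univ.image (fun i => (Nu i).leadingCoeff) ∪
    Finset.univ.biUnion (fun q : Fin n × Fin n => (Multiset.map
      (fun y : (PowerSeries QA)ˣ => PowerSeries.coeff 0 (y : PowerSeries QA))
      (𝒞.ys q.1 true q.2)).toFinset))
  choose D₃ hD₃ using nr_large_poly
  refine ⟨D₁ + D₂ + ∑ i, D₃ (Nu i) + ∑ i, D₃ (De i) + ∑ i, kk i, ?_⟩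
  intro p hpf hp lam mu w e he hw hval hmu
  obtain ⟨C, _, _, _, _, _, φ, hpn⟩ := exists_padic p
  have hpR : (1 : ℝ) < p := by exact_mod_cast hpf.out.one_lt
  have hp0 : 0 < ‖(p : C)‖ := by rw [hpn]; exact inv_pos.2 (by linarith)
  have hp1 : ‖(p : C)‖ < 1 := by rw [hpn]; exact inv_lt_one_of_one_lt₀ hpR
  have hpC : (p : C) ≠ 0 := norm_pos_iff.1 hp0
  obtain ⟨k, _, _, _, red, hker⟩ := exists_residue2 (C := C) (p := p) hp1
  obtain ⟨M, d, D, 𝓛, hφ, hΛ, htm, hPt, hunit⟩ := hD₁ p (by omega) C φ hp0 hp1 k red hker lam mu w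
    e he hw hval hmu
  have hlam0 : ∀ i, lam i ≠ 0 := by
    intro i h0
    have h1 : (𝓛.Λ i : C) = 0 := by
      rw [hΛ, h0, Rat.cast_zero]
    exact (𝓛.Λ i).ne_zero h1
  have hU : ∀ α : QA, α ∈ Finset.univ.image γ ∪
      Finset.univ.image (fun i => (De i).leadingCoeff) ∪
      Finset.univ.image (fun i => (Nu i).leadingCoeff) ∪
      Finset.univ.biUnion (fun q : Fin n × Fin n => (Multiset.map
        (fun y : (PowerSeries QA)ˣ => PowerSeries.coeff 0 (y : PowerSeries QA))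
        (𝒞.ys q.1 true q.2)).toFinset) → α ≠ 0 →
      φ α ∈ Nr C p ∧ ‖φ α‖ = 1 := hD₂ p (by omega) C φ hp1
  have hUγ : ∀ i, φ (γ i) ∈ Nr C p ∧ ‖φ (γ i)‖ = 1 := fun i => hU _ (by simp) (hγ0 i)
  have hUD : ∀ i, ‖φ (De i).leadingCoeff‖ = 1 := fun i => (hU _ (by
    simp only [Finset.mem_union, Finset.mem_image, Finset.mem_univ, true_and]
    exact Or.inl (Or.inl (Or.inr ⟨i, rfl⟩))) (leadingCoeff_ne_zero.2 (hDe i))).2
  have hUN : ∀ i, ‖φ (Nu i).leadingCoeff‖ = 1 := fun i => (hU _ (by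
    simp only [Finset.mem_union, Finset.mem_image, Finset.mem_univ, true_and]
    exact Or.inl (Or.inr ⟨i, rfl⟩)) (leadingCoeff_ne_zero.2 (hNu i))).2
  have hUy : ∀ j k, ∀ y ∈ 𝒞.ys k true j, ‖φ (PowerSeries.coeff 0 (y : PowerSeries QA))‖ = 1 := by
    intro j k y hy
    refine (hU _ ?_ ?_).2
    · rw [Finset.mem_union]
      right
      rw [Finset.mem_biUnion]
      refine ⟨(k, j), Finset.mem_univ _, ?_⟩
      rw [Multiset.mem_toFinset, Multiset.mem_map]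
      exact ⟨y, hy, rfl⟩
    · rw [PowerSeries.coeff_zero_eq_constantCoeff_apply]
      exact ((y.isUnit).map PowerSeries.constantCoeff).ne_zero
  have hle : ∀ (f : Fin n → ℕ) (i : Fin n), f i ≤ ∑ i, f i := fun f i =>
    Finset.single_le_sum (f := f) (fun _ _ => Nat.zero_le _) (Finset.mem_univ i)
  have hPN : ∀ i j, ‖((Nu i).map φ).coeff j‖ ≤ 1 := by
    intro i j
    have h1 := hle (fun i => D₃ (Nu i)) i
    have h2 := hD₃ (Nu i) p (by omega) C φ hp1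
    rw [mem_PS] at h2
    exact Nr_le (h2 j)
  have hPD : ∀ i j, ‖((De i).map φ).coeff j‖ ≤ 1 := by
    intro i j
    have h1 := hle (fun i => D₃ (De i)) i
    have h2 := hD₃ (De i) p (by omega) C φ hp1
    rw [mem_PS] at h2
    exact Nr_le (h2 j)
  have hkp : ∀ i, kk i < p := fun i => by
    have := hle kk i
    omega
  have hexp : ∀ i, ∃ β : C, ‖β‖ ≤ 1 ∧ ∀ (Λ : Cˣ) (m x : C), ‖(Λ : C)‖⁻¹ ≤ ‖(p : C)‖ →
      ‖m‖ ≤ ‖(p : C)‖ * ‖(Λ : C)‖ → ‖(p : C)‖ < ‖x‖ →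
      ((De i).map φ).eval (Λ * x + m) ≠ 0 ∧
      1 < ‖((Nu i).map φ).eval (Λ * x + m) / ((De i).map φ).eval (Λ * x + m)‖ ∧
      ∃ t : C, t ≠ 0 ∧ t ^ kk i = qT (φ.comp iA)
        (((Nu i).map φ).eval (Λ * x + m) / ((De i).map φ).eval (Λ * x + m)) ∧
        ‖t * ((Units.mk0 (φ (γ i)) ((map_ne_zero φ).2 (hγ0 i)) * Λ : Cˣ) * x) - 1‖ ≤
          ‖(p : C)‖ * ‖x‖⁻¹ ∧
        (‖x‖ = 1 → ‖t * ((Units.mk0 (φ (γ i)) ((map_ne_zero φ).2 (hγ0 i)) * Λ : Cˣ) * x) -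
          (1 + (β - m) * (Λ * x)⁻¹)‖ ≤ ‖(p : C)‖ ^ 2) := by
    intro i
    refine exp' C p (φ.comp iA) (psi_norm φ) hp0 hp1 ((Nu i).map φ) ((De i).map φ) (kk i)
      (hkk0 i) (hkp i) ((Polynomial.map_ne_zero_iff φ.injective).2 (hDe i)) ?_ (hPN i) (hPD i) ?_ ?_
      (Units.mk0 (φ (γ i)) ((map_ne_zero φ).2 (hγ0 i))) ?_
    · rw [natDegree_map, natDegree_map]
      have := hdeg i
      show _ = _ + ((Nu i).natDegree - (De i).natDegree)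
      omega
    · rw [leadingCoeff_map]
      exact hUN i
    · rw [leadingCoeff_map]
      exact hUD i
    · rw [leadingCoeff_map, leadingCoeff_map, Units.val_mk0, ← hγ i, map_mul, map_pow]
  choose β hβ hexpβ using hexp
  -- size of `Λ`
  have hΛn : ∀ i, ‖((𝓛.Λ i : Cˣ) : C)‖⁻¹ ≤ ‖(p : C)‖ := by
    intro i
    rw [hΛ, rat_norm hp0 hp1 (hlam0 i), hval i, ← zpow_neg, neg_neg]
    have h1 : (1 : ℤ) ≤ (w i : ℤ) * e := by
      have h2 := Nat.mul_pos (hw i).1 he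
      exact_mod_cast h2
    calc ‖(p : C)‖ ^ ((w i : ℤ) * e) ≤ ‖(p : C)‖ ^ (1 : ℤ) :=
          zpow_le_zpow_right_of_le_one₀ hp0 hp1.le h1
      _ = ‖(p : C)‖ := zpow_one _
  have hmn : ∀ i, ‖(mu i : C)‖ ≤ ‖(p : C)‖ * ‖((𝓛.Λ i : Cˣ) : C)‖ := by
    intro i
    rw [hΛ]
    exact mu_norm hp0 hp1 (hlam0 i) (hmu i)
  -- the new local data
  let γu : Fin n → Cˣ := fun i => Units.mk0 (φ (γ i)) ((map_ne_zero φ).2 (hγ0 i))
  let 𝓛' : Loc C p k n 𝒞.N W M d D :=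
    { 𝓛 with
      Λ := fun i => γu i * 𝓛.Λ i
      hΛ := fun i => by
        rw [mul_assoc]
        exact mul_mem (GG_of_close (hUγ i).1 (hUγ i).2 (by simp [γu])) (𝓛.hΛ i)
      tm := fun _ => 0
      htm := fun i => by
        rw [norm_zero]
        positivity }
  have hPt' : ∀ x, 𝓛.Pt x → 𝓛'.Pt x := fun x h => ⟨h.r1, h.r1', h.r2⟩
  -- the second order terms
  have hκ : ∀ i, ∃ κ : OO C, (κ : C) = (β i - mu i) * (p * (𝓛.Λ i : C))⁻¹ := by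
    intro i
    refine ⟨⟨_, ?_⟩, rfl⟩
    rw [mem_OO]
    have hΛpos : 0 < ‖((𝓛.Λ i : Cˣ) : C)‖ := norm_pos_iff.2 (𝓛.Λ i).ne_zero
    have h1 : 1 ≤ ‖(p : C)‖ * ‖((𝓛.Λ i : Cˣ) : C)‖ := by
      have := hΛn i
      rwa [inv_le_iff_one_le_mul₀ hΛpos] at this
    rw [norm_mul, norm_inv, norm_mul, ← div_eq_mul_inv, div_le_one (by positivity)]
    exact nsub_le ((hβ i).trans h1) (hmn i)
  choose κ hκ using hκ
  refine ⟨hlam0, ?_, ?_⟩
  · intro j l hjl y hy h0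
    have h1 := (hexpβ j (𝓛.Λ j) (mu j) (φ (PowerSeries.coeff 0 (y : PowerSeries QA))) (hΛn j)
      (hmn j) (by rw [hUy j l y hy]; exact hp1)).1
    apply h1
    have h2 : (pc (lam j) (mu j) (De j)).eval₂ φ
        (φ (PowerSeries.coeff 0 (y : PowerSeries QA))) = 0 := by
      rw [eval₂_at_apply, h0, map_zero]
    rw [pc_eval₂, ← hΛ, eval₂_eq_eval_map] at h2
    exact h2
  obtain ⟨G, hG⟩ := local_main3 𝓛' ((∑ i, kk i) ^ 4) κ
  refine ⟨G, ?_⟩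
  intro s hs r Z hr hZ
  set X₀ : Fin n → QA := fun i => (Nu i).eval ((lam i : QA) * s i + mu i) /
    (De i).eval ((lam i : QA) * s i + mu i) with hX₀
  have hXr : ∀ i, rA (X₀ i) = qv (Nu i) (De i) (lam i * rA (s i) + mu i) := by
    intro i
    have h1 : (lam i : ℂ) * rA (s i) + mu i = rA ((lam i : QA) * s i + mu i) := by
      rw [map_add, map_mul, map_ratCast, map_ratCast]
    rw [hX₀, qv, h1, eval₂_at_apply, eval₂_at_apply, map_div₀]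
  have hXφ : ∀ i, φ (X₀ i) = ((Nu i).map φ).eval ((𝓛.Λ i : C) * φ (s i) + mu i) /
      ((De i).map φ).eval ((𝓛.Λ i : C) * φ (s i) + mu i) := by
    intro i
    have h1 : (𝓛.Λ i : C) * φ (s i) + mu i = φ ((lam i : QA) * s i + mu i) := by
      rw [map_add, map_mul, map_ratCast, map_ratCast, hΛ]
    rw [hX₀, h1, eval_map_apply, eval_map_apply, map_div₀]
  have ht : ∀ i, ∃ t : C, ‖(p : C)‖ < ‖φ (s i)‖ → 1 < ‖φ (X₀ i)‖ ∧ t ≠ 0 ∧
      t ^ kk i = qT (φ.comp iA) (φ (X₀ i)) ∧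
      ‖t * ((γu i * 𝓛.Λ i : Cˣ) * φ (s i)) - 1‖ ≤ ‖(p : C)‖ * ‖φ (s i)‖⁻¹ ∧
      (‖φ (s i)‖ = 1 → ‖t * ((γu i * 𝓛.Λ i : Cˣ) * φ (s i)) -
          (1 + (β i - mu i) * ((𝓛.Λ i : C) * φ (s i))⁻¹)‖ ≤ ‖(p : C)‖ ^ 2) := by
    intro i
    by_cases h : ‖(p : C)‖ < ‖φ (s i)‖
    · obtain ⟨-, h1, t, h2, h3, h4, h5⟩ := hexpβ i (𝓛.Λ i) (mu i) (φ (s i)) (hΛn i) (hmn i) h
      rw [← hXφ] at h1 h3
      exact ⟨t, fun _ => ⟨h1, h2, h3, h4, h5⟩⟩
    · exact ⟨0, fun h' => absurd h' h⟩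
  choose t ht using ht
  have hTq : Tq 𝓛' ((∑ i, kk i) ^ 4) κ (fun i => φ (s i)) X₀ t := by
    refine ⟨fun i hi => ?_, fun i hi => (ht i hi).2.1, fun i hi _ => (ht i hi).2.2.2.1,
      fun i hi => ?_, ?_⟩
    · show 1 < ‖𝓛.φ (X₀ i)‖
      rw [hφ]
      exact (ht i hi).1
    · have h1 := (ht i (by rw [hi]; exact hp1)).2.2.2.2 hi
      have h2 : (β i - mu i) * ((𝓛.Λ i : C) * φ (s i))⁻¹ = p * (κ i * (φ (s i))⁻¹) := by
        rw [hκ i, mul_inv, mul_inv]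
        have h3 : (p : C) * (p : C)⁻¹ = 1 := mul_inv_cancel₀ hpC
        calc (β i - mu i) * (((𝓛.Λ i : Cˣ) : C)⁻¹ * (φ (s i))⁻¹) =
            ((p : C) * (p : C)⁻¹) * ((β i - mu i) * (((𝓛.Λ i : Cˣ) : C)⁻¹ * (φ (s i))⁻¹)) := by
              rw [h3, one_mul]
          _ = _ := by ring
      rw [h2] at h1
      exact h1
    · intro i l hi hl τ z a b c d' hdet hz hτ hz'
      obtain ⟨A, B, g, ζ, hA, hB, hAB, hg, hζ, hrel, -, N', hN'0, hN', hΨ⟩ := rel C (φ.comp iA)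
        (psi_norm φ) QA iA rA φ rA_comp rfl τ z a b c d' hdet hz (X₀ i) (X₀ l) hτ hz' (ht i hi).1
        (kk i) (kk l) (hkk0 i) (hkk0 l) (t i) (t l) (ht i hi).2.2.1 (ht l hl).2.2.1
      refine ⟨A, B, g, ζ, hA, hB, hAB, hg, hζ, hrel, N', hN'0, hN'.trans ?_, ?_⟩
      · have h1 : (kk i * kk l) ^ 2 ≤ (∑ i, kk i) ^ 4 := by
          calc (kk i * kk l) ^ 2 ≤ ((∑ i, kk i) * (∑ i, kk i)) ^ 2 := by
                gcongr
                · exact hle kk i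
                · exact hle kk l
            _ = (∑ i, kk i) ^ 4 := by ring
        gcongr
      · rw [hτ, hz']
        exact hΨ
  obtain ⟨j, l, hjl, N', hN'0, hN', hΨ⟩ := hG X₀ (fun i => φ (s i)) t
    (hPt' _ (hPt s hs)) hTq r Z hr (by
      have : (fun i => rA (X₀ i)) = fun i => qv (Nu i) (De i) (lam i * rA (s i) + mu i) :=
        funext hXr
      rw [this]
      exact hZ)
  refine ⟨j, l, hjl, N', hN'0, hN', ?_⟩
  rw [← hXr, ← hXr]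
  exact hΨ

end Pool.Agent.Y92.ZF
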